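import Pool.Agent.TH990.HP.Path
import Pool.Agent.TH990.DP.LimL

/-!
The exploration path of the half-plane: arms from the events for the rescaled curve, continued.
-/

set_option autoImplicit false

namespace Pool.Agent.TH990.HP

open H974 H12S Finset H389NS H984P H342P Pool.Agent.TH990.FU
open MeasureTheory Filter Topology Pool.Agent.W92.DP Pool.Agent.W462.DPL Pool.Agent.W424.OD
open H984H (Conf perc opn path place gam curve bx cut)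

/-- The box which contains everything. -/
def Big (n : ℕ) (c : ℤ × ℤ) (K : ℕ) (ρ : ℤ) : Prop :=
  (n : ℤ) + 2 ≤ ρ ∧ -ρ < c.1 - K ∧ c.1 + K < ρ ∧ c.2 + K < ρ

theorem exists_big (n : ℕ) (c : ℤ × ℤ) (K : ℕ) : ∃ ρ : ℤ, 1 ≤ ρ ∧ Big n c K ρ := by
  refine ⟨n + 2 + |c.1| + |c.2| + K + 1, ?_, ?_, ?_, ?_, ?_⟩
  · have := abs_nonneg c.1
    have := abs_nonneg c.2
    omega
  · have := abs_nonneg c.1
    have := abs_nonneg c.2
    omega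
  · have := neg_abs_le c.1
    have := abs_nonneg c.2
    omega
  · have := le_abs_self c.1
    have := abs_nonneg c.2
    omega
  · have := le_abs_self c.2
    have := abs_nonneg c.1
    omega

theorem far_box {δ d : ℝ} (hδ : 0 < δ) (hd : 256 * δ ≤ d) {z : ℂ} {w : Vtx} {K : ℕ}
    (hK : K ≤ ⌊d / (8 * δ)⌋₊) (h : BX (vz δ 0 z) K w) : dist (zp δ 0 w) z ≤ d / 4 + 2 * δ := by
  have h5 := of_box hδ h
  have hd0 : 0 < d := by linarith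
  have hk : (K : ℝ) ≤ d / (8 * δ) := by
    have h6 : (⌊d / (8 * δ)⌋₊ : ℝ) ≤ d / (8 * δ) := Nat.floor_le (by positivity)
    have h7 : (K : ℝ) ≤ (⌊d / (8 * δ)⌋₊ : ℝ) := by exact_mod_cast hK
    linarith
  have h6 : 2 * δ * (K : ℝ) ≤ d / 4 := by
    calc 2 * δ * (K : ℝ) ≤ 2 * δ * (d / (8 * δ)) := mul_le_mul_of_nonneg_left hk (by positivity)
      _ = d / 4 := by
          field_simp
          norm_num
  linarith

/-- two visits of a disc with an excursion in between -/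
theorem det4 {n : ℕ} (hn : 0 < n) {z : ℂ} {r d : ℝ} (hδr : sc n ≤ r) (hd : 256 * r ≤ d)
    (hball : Metric.ball z d ⊆ {w : ℂ | 0 < w.im}) {ω : Conf}
    (hE : ∃ s u t : unitInterval, (s ≤ u ∧ u ≤ t) ∧ dist (curve n ω s) z < r ∧
      dist (curve n ω t) z < r ∧ d / 2 < dist (curve n ω u) z) {ρ : ℤ}
    (hρ : Big n (vz (sc n) 0 z) ⌊d / (8 * sc n)⌋₊ ρ) :
    A4a (vz (sc n) 0 z) (⌈r / sc n⌉₊ + 3 + 2) (⌊d / (8 * sc n)⌋₊ - 2) ↑(cut ω ρ) ∨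
      A4d (vz (sc n) 0 z) (⌈r / sc n⌉₊ + 3 + 2) (⌊d / (8 * sc n)⌋₊ - 2) ↑(cut ω ρ) := by
  obtain ⟨s, u, t, ⟨hsu, hut⟩, h1, h2, h3⟩ := hE
  set δ := sc n with hδdef
  have hδ : 0 < δ := sc_pos hn
  have hr : 0 < r := hδ.trans_le hδr
  have hd0 : 0 < d := by linarith
  have hst : ∀ k < n, dist (((δ : ℝ) : ℂ) * gam ω k) (((δ : ℝ) : ℂ) * gam ω (k + 1)) ≤ δ / 2 :=
    fun k _ => gstep hδ.le ω k
  rw [curve_eq, ← hδdef] at h1 h2 h3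
  obtain ⟨i, hiN, ⟨i1, i2⟩, hi⟩ := pl_close' hn hst s
  obtain ⟨j, hjN, ⟨j1, j2⟩, hj⟩ := pl_close' hn hst u
  obtain ⟨l, hlN, ⟨l1, l2⟩, hl⟩ := pl_close' hn hst t
  set f := H984N.pl n (fun k => ((δ : ℝ) : ℂ) * gam ω k) with hf
  have hsu' : s ≠ u := by
    intro h
    rw [h] at h1
    linarith
  have hut' : u ≠ t := by
    intro h
    rw [← h] at h2
    linarith
  have hij : i ≤ j := idx_le hn hsu hsu' i1 j2
  have hjl : j ≤ l := idx_le hn hut hut' j1 l2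
  have pi : dist (((δ : ℝ) : ℂ) * gam ω i) z ≤ r + δ / 2 := by
    have := dist_triangle_left (((δ : ℝ) : ℂ) * gam ω i) z (f s)
    linarith
  have plz : dist (((δ : ℝ) : ℂ) * gam ω l) z ≤ r + δ / 2 := by
    have := dist_triangle_left (((δ : ℝ) : ℂ) * gam ω l) z (f t)
    linarith
  have pj : d / 2 - δ / 2 < dist (((δ : ℝ) : ℂ) * gam ω j) z := by
    have := dist_triangle (f u) (((δ : ℝ) : ℂ) * gam ω j) z
    linarith
  have hij' : i < j := by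
    rcases hij.lt_or_eq with h | h
    · exact h
    · exfalso
      rw [h] at pi
      linarith
  have hjl' : j < l := by
    rcases hjl.lt_or_eq with h | h
    · exact h
    · exfalso
      rw [← h] at plz
      linarith
  obtain ⟨s1, s2, _, _⟩ := sizes hδ hδr hd
  obtain ⟨ρ1, ρ2, ρ3, ρ4⟩ := hρ
  have hdom := dom_half (K := ⌊d / (8 * δ)⌋₊) hδ (by linarith) hball (k_small hδ (by linarith))
  obtain ⟨ci, ci'⟩ := coupleN (n := n) (ρ := ρ) (by omega) ω (k := i) (by omega)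
  obtain ⟨cj, cj'⟩ := coupleN (n := n) (ρ := ρ) (by omega) ω (k := j) (by omega)
  obtain ⟨cl, cl'⟩ := coupleN (n := n) (ρ := ρ) (by omega) ω (k := l) (by omega)
  have hnear : ∀ k : ℕ, dist (((δ : ℝ) : ℂ) * gam ω k) z ≤ r + δ / 2 →
      inR ((vz δ 0 z).1 - (⌈r / δ⌉₊ + 3 : ℕ)) ((vz δ 0 z).1 + (⌈r / δ⌉₊ + 3 : ℕ))
        ((vz δ 0 z).2 - (⌈r / δ⌉₊ + 3 : ℕ)) ((vz δ 0 z).2 + (⌈r / δ⌉₊ + 3 : ℕ)) (path ω k).1 := by
    intro k hk
    refine box_of hδ ?_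
    have h4 := place_near hδ.le (path ω k)
    have h5 := dist_triangle_left (zp δ 0 (path ω k).1) z (((δ : ℝ) : ℂ) * gam ω k)
    have h6 : dist (((δ : ℝ) : ℂ) * gam ω k) (zp δ 0 (path ω k).1) ≤ δ / 2 := h4
    linarith
  have hmain := st_U (bxN ρ) (cutz ω ρ) (bxN_ok (by omega)) (cutz_sub ω ρ) (vz δ 0 z)
    (⌈r / δ⌉₊ + 3) ⌊d / (8 * δ)⌋₊ s1 ρ2 ρ3 hdom ρ4
    ((bxN ρ).len (cutz ω ρ) - 1 - l) ((bxN ρ).len (cutz ω ρ) - 1 - j)
    ((bxN ρ).len (cutz ω ρ) - 1 - i) (by omega) (by omega) (by omega)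
    (by rw [cl']; exact hnear l plz) (by rw [ci']; exact hnear i pi) (by
      rw [cj']
      intro hin
      have h5 := far_box hδ (by linarith) le_rfl (w := (path ω j).1) hin
      have h4 := place_near hδ.le (path ω j)
      have h6 : dist (((δ : ℝ) : ℂ) * gam ω j) (zp δ 0 (path ω j).1) ≤ δ / 2 := h4
      have h7 := dist_triangle (((δ : ℝ) : ℂ) * gam ω j) (zp δ 0 (path ω j).1) z
      linarith)
  have hsub : ∀ k : ℕ, k ≤ ⌊d / (8 * δ)⌋₊ → 0 < (vz δ 0 z).2 - k := by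
    intro k hk
    omega
  rcases hmain with h | h
  · left
    exact (Pool.Agent.W571.DPad.A4a_congr (cutz_blk (hsub _ (by omega)))).1 h
  · right
    unfold A4d at h ⊢
    refine (Pool.Agent.W571.DPad.A4a_congr (dl_blk (K := ⌊d / (8 * δ)⌋₊ - 1) (by omega) ?_)).1 h
    intro e he
    have h8 : e ∈ cutz ω ρ ↔ e ∈ cut ω ρ := by
      classical
      unfold cutz
      rw [Finset.mem_filter]
      refine ⟨fun h => h.1, fun h => ⟨h, ?_⟩⟩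
      rintro ⟨-, hy, -⟩
      have h3 := he.1.2.1
      obtain ⟨x, y, β⟩ := e
      rw [src_mk] at h3
      simp only at h3 hy
      omega
    rw [Set.mem_compl_iff, Set.mem_compl_iff, Finset.mem_coe, Finset.mem_coe, h8]

/-- one visit of a disc -/
theorem det2 {n : ℕ} (hn : 0 < n) {z : ℂ} {r d : ℝ} (hδr : sc n ≤ r) (hd : 256 * r ≤ d)
    (hball : Metric.ball z d ⊆ {w : ℂ | 0 < w.im}) {ω : Conf}
    (hE : ∃ s : unitInterval, dist (curve n ω s) z < r) {ρ : ℤ}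
    (hρ : Big n (vz (sc n) 0 z) ⌊d / (8 * sc n)⌋₊ ρ) :
    H984H.two_An ((bx ρ).edges \ RE ((vz (sc n) 0 z).1 - (⌈r / sc n⌉₊ + 3 : ℕ))
        ((vz (sc n) 0 z).1 + (⌈r / sc n⌉₊ + 3 : ℕ)) ((vz (sc n) 0 z).2 - (⌈r / sc n⌉₊ + 3 : ℕ))
        ((vz (sc n) 0 z).2 + (⌈r / sc n⌉₊ + 3 : ℕ))) (vz (sc n) 0 z) (⌈r / sc n⌉₊ + 3 + 1)
      ⌊d / (8 * sc n)⌋₊ (cut ω ρ) := by
  obtain ⟨s, h1⟩ := hE
  set δ := sc n with hδdef
  have hδ : 0 < δ := sc_pos hn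
  have hr : 0 < r := hδ.trans_le hδr
  have hd0 : 0 < d := by linarith
  have hst : ∀ k < n, dist (((δ : ℝ) : ℂ) * gam ω k) (((δ : ℝ) : ℂ) * gam ω (k + 1)) ≤ δ / 2 :=
    fun k _ => gstep hδ.le ω k
  rw [curve_eq, ← hδdef] at h1
  obtain ⟨i, hiN, -, hi⟩ := pl_close' hn hst s
  set f := H984N.pl n (fun k => ((δ : ℝ) : ℂ) * gam ω k) with hf
  have pi : dist (((δ : ℝ) : ℂ) * gam ω i) z ≤ r + δ / 2 := by
    have := dist_triangle_left (((δ : ℝ) : ℂ) * gam ω i) z (f s)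
    linarith
  obtain ⟨s1, s2, _, _⟩ := sizes hδ hδr hd
  obtain ⟨ρ1, ρ2, ρ3, ρ4⟩ := hρ
  have hdom := dom_half (K := ⌊d / (8 * δ)⌋₊) hδ (by linarith) hball (k_small hδ (by linarith))
  have hnear : inR ((vz δ 0 z).1 - (⌈r / δ⌉₊ + 3 : ℕ)) ((vz δ 0 z).1 + (⌈r / δ⌉₊ + 3 : ℕ))
        ((vz δ 0 z).2 - (⌈r / δ⌉₊ + 3 : ℕ)) ((vz δ 0 z).2 + (⌈r / δ⌉₊ + 3 : ℕ)) (path ω i).1 := by
    refine box_of hδ ?_
    have h4 := place_near hδ.le (path ω i)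
    have h5 := dist_triangle_left (zp δ 0 (path ω i).1) z (((δ : ℝ) : ℂ) * gam ω i)
    have h6 : dist (((δ : ℝ) : ℂ) * gam ω i) (zp δ 0 (path ω i).1) ≤ δ / 2 := h4
    linarith
  have hc := H984H.couple (ρ := ρ) (by omega) ω (k := i) (fun j hj => stay (n := n) (by omega) ω (by omega))
  have hv : (bx ρ).Vis (cut ω ρ) (path ω i) := ⟨_, by omega, hc.2⟩
  have h3 := H984H.vis_ann (H984H.bx_ok (ρ := ρ) (by omega)) (H984H.Couple_cut_sub ω ρ) hv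
    (c1 := (vz δ 0 z).1) (c2 := (vz δ 0 z).2) (k := ⌈r / δ⌉₊ + 3) (R := ⌊d / (8 * δ)⌋₊) hnear
    (by omega) (by show -ρ ≤ _; omega) (by show _ ≤ ρ; omega) (by omega) (by show _ ≤ ρ; omega)
  unfold H984H.two_An
  have e1 : cut ω ρ ∩ ((bx ρ).edges \ RE ((vz δ 0 z).1 - (⌈r / δ⌉₊ + 3 : ℕ))
        ((vz δ 0 z).1 + (⌈r / δ⌉₊ + 3 : ℕ)) ((vz δ 0 z).2 - (⌈r / δ⌉₊ + 3 : ℕ))
        ((vz δ 0 z).2 + (⌈r / δ⌉₊ + 3 : ℕ))) = cut ω ρ \ RE ((vz δ 0 z).1 - (⌈r / δ⌉₊ + 3 : ℕ))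
        ((vz δ 0 z).1 + (⌈r / δ⌉₊ + 3 : ℕ)) ((vz δ 0 z).2 - (⌈r / δ⌉₊ + 3 : ℕ))
        ((vz δ 0 z).2 + (⌈r / δ⌉₊ + 3 : ℕ)) := by
    ext e
    simp only [Finset.mem_inter, Finset.mem_sdiff]
    constructor
    · rintro ⟨a1, a2, a3⟩
      exact ⟨a1, a3⟩
    · rintro ⟨a1, a3⟩
      exact ⟨a1, H984H.Couple_cut_sub ω ρ a1, a3⟩
  rw [e1]
  exact h3

end Pool.Agent.TH990.HP
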