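import Pool.Agent.TH990.HP.Det

/-!
The exploration path of the half-plane: three arms.
-/

set_option autoImplicit false

namespace Pool.Agent.TH990.HP

open H974 H12S Finset H389NS H984P H342P Pool.Agent.TH990.FU
open MeasureTheory Filter Topology Pool.Agent.W92.DP Pool.Agent.W462.DPL Pool.Agent.W424.OD
open H984H (Conf perc opn path place gam curve bx cut)

theorem adj_mem {E : Set Edg} {e : Edg} (he : e ∈ E) : Reach E (src e) (tgt e) :=
  Adj.reach ⟨e, he, Or.inl ⟨rfl, rfl⟩⟩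

theorem dadj_mem {E : Set Edg} {e : Edg} (he : e ∈ E) : Reach (dl '' E) (dsrc e) (dtgt e) := by
  have h := adj_mem (E := dl '' E) (e := dl e) ⟨e, he, rfl⟩
  rwa [src_dl, tgt_dl] at h

theorem loc_step {C : Set Edg} {c : ℤ × ℤ} {K K' : ℕ} (hK : K + 1 ≤ K') {σ : St}
    (hσ : BX c K σ.1) :
    Reach (C ∩ EB (c.1 - K') (c.1 + K') (c.2 - K') (c.2 + K')) σ.1 (nxt C σ).1 ∧
      Reach (dl '' (Cᶜ ∩ EB (c.1 - K') (c.1 + K') (c.2 - K') (c.2 + K'))) (face σ)
        (face (nxt C σ)) := by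
  obtain ⟨⟨x, y⟩, q⟩ := σ
  obtain ⟨⟨h1, h2⟩, h3, h4⟩ := hσ
  simp only at h1 h2 h3 h4
  have mE : ∀ (u v : Vtx), (c.1 - K' ≤ u.1 ∧ u.1 ≤ c.1 + K') → (c.2 - K' ≤ u.2 ∧ u.2 ≤ c.2 + K') →
      (c.1 - K' ≤ v.1 ∧ v.1 ≤ c.1 + K') → (c.2 - K' ≤ v.2 ∧ v.2 ≤ c.2 + K') → ∀ e : Edg,
      src e = u → tgt e = v → e ∈ EB (c.1 - K') (c.1 + K') (c.2 - K') (c.2 + K') := by
    rintro u v a1 a2 a3 a4 e rfl rfl
    exact ⟨⟨a1, a2⟩, a3, a4⟩
  cases q
  · -- ne
    have m : ((x, y, true) : Edg) ∈ EB (c.1 - K') (c.1 + K') (c.2 - K') (c.2 + K') :=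
      mE (x, y) (x + 1, y) (by simp only; omega) (by simp only; omega) (by simp only; omega)
        (by simp only; omega) _ rfl (tgt_true _ _)
    by_cases he : ((x, y, true) : Edg) ∈ C
    · rw [nxt_open (by simpa using he), mv_ne]
      refine ⟨?_, ?_⟩
      · have := adj_mem (E := C ∩ EB (c.1 - K') (c.1 + K') (c.2 - K') (c.2 + K')) ⟨he, m⟩
        rwa [tgt_true] at this
      · rw [face_ne, face_nw, add_sub_cancel_right]
        exact Reach.refl _ _
    · rw [nxt_closed (by simpa using he), rt_ne]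
      refine ⟨Reach.refl _ _, ?_⟩
      have := dadj_mem (E := Cᶜ ∩ EB (c.1 - K') (c.1 + K') (c.2 - K') (c.2 + K')) ⟨he, m⟩
      rw [dsrc_true, dtgt_mk] at this
      rw [face_ne, face_se]
      exact this.symm
  · -- nw
    have m : ((x, y, false) : Edg) ∈ EB (c.1 - K') (c.1 + K') (c.2 - K') (c.2 + K') :=
      mE (x, y) (x, y + 1) (by simp only; omega) (by simp only; omega) (by simp only; omega)
        (by simp only; omega) _ rfl (tgt_false _ _)
    by_cases he : ((x, y, false) : Edg) ∈ C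
    · rw [nxt_open (by simpa using he), mv_nw]
      refine ⟨?_, ?_⟩
      · have := adj_mem (E := C ∩ EB (c.1 - K') (c.1 + K') (c.2 - K') (c.2 + K')) ⟨he, m⟩
        rwa [tgt_false] at this
      · rw [face_nw, face_sw, add_sub_cancel_right]
        exact Reach.refl _ _
    · rw [nxt_closed (by simpa using he), rt_nw]
      refine ⟨Reach.refl _ _, ?_⟩
      have := dadj_mem (E := Cᶜ ∩ EB (c.1 - K') (c.1 + K') (c.2 - K') (c.2 + K')) ⟨he, m⟩
      rw [dsrc_false, dtgt_mk] at this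
      rw [face_nw, face_ne]
      exact this
  · -- sw
    have m : ((x - 1, y, true) : Edg) ∈ EB (c.1 - K') (c.1 + K') (c.2 - K') (c.2 + K') :=
      mE (x - 1, y) (x, y) (by simp only; omega) (by simp only; omega) (by simp only; omega)
        (by simp only; omega) _ rfl (by rw [tgt_true]; simp)
    by_cases he : ((x - 1, y, true) : Edg) ∈ C
    · rw [nxt_open (by simpa using he), mv_sw]
      refine ⟨?_, ?_⟩
      · have := adj_mem (E := C ∩ EB (c.1 - K') (c.1 + K') (c.2 - K') (c.2 + K')) ⟨he, m⟩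
        rw [tgt_true, sub_add_cancel] at this
        exact this.symm
      · rw [face_sw, face_se]
        exact Reach.refl _ _
    · rw [nxt_closed (by simpa using he), rt_sw]
      refine ⟨Reach.refl _ _, ?_⟩
      have := dadj_mem (E := Cᶜ ∩ EB (c.1 - K') (c.1 + K') (c.2 - K') (c.2 + K')) ⟨he, m⟩
      rw [dsrc_true, dtgt_mk] at this
      rw [face_sw, face_nw]
      exact this
  · -- se
    have m : ((x, y - 1, false) : Edg) ∈ EB (c.1 - K') (c.1 + K') (c.2 - K') (c.2 + K') :=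
      mE (x, y - 1) (x, y) (by simp only; omega) (by simp only; omega) (by simp only; omega)
        (by simp only; omega) _ rfl (by rw [tgt_false]; simp)
    by_cases he : ((x, y - 1, false) : Edg) ∈ C
    · rw [nxt_open (by simpa using he), mv_se]
      refine ⟨?_, ?_⟩
      · have := adj_mem (E := C ∩ EB (c.1 - K') (c.1 + K') (c.2 - K') (c.2 + K')) ⟨he, m⟩
        rw [tgt_false, sub_add_cancel] at this
        exact this.symm
      · rw [face_se, face_ne]
        exact Reach.refl _ _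
    · rw [nxt_closed (by simpa using he), rt_se]
      refine ⟨Reach.refl _ _, ?_⟩
      have := dadj_mem (E := Cᶜ ∩ EB (c.1 - K') (c.1 + K') (c.2 - K') (c.2 + K')) ⟨he, m⟩
      rw [dsrc_false, dtgt_mk] at this
      rw [face_se, face_sw]
      exact this.symm

/-- The states of the first `n` steps. -/
def Vn (ω : Conf) (n : ℕ) : Set St := {σ | ∃ k ≤ n, path ω k = σ}

theorem Vn_inv {ω : Conf} {n : ℕ} {c : ℤ × ℤ} {K : ℕ} (h0 : ¬ BX c K (path ω 0).1)
    (hn : ¬ BX c K (path ω n).1) (σ : St) (h1 : BX c K σ.1) (h2 : BX c K (nxt (opn ω) σ).1) :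
    σ ∈ Vn ω n ↔ nxt (opn ω) σ ∈ Vn ω n := by
  constructor
  · rintro ⟨k, hk, rfl⟩
    cases k with
    | zero => exact absurd h1 h0
    | succ k =>
      rw [nxt_path]
      exact ⟨k, by omega, rfl⟩
  · rintro ⟨k, hk, h⟩
    have h3 : σ = path ω (k + 1) := by
      have h4 := H984H.step_nxt (opn ω) σ
      rw [← h] at h4
      exact h4.symm
    refine ⟨k + 1, ?_, h3.symm⟩
    rcases hk.lt_or_eq with h5 | h5
    · exact h5
    · exfalso
      rw [← h, h5] at h2
      exact hn h2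

theorem path_nb (ω : Conf) (k : ℕ) : |(path ω k).1.1 - (path ω (k + 1)).1.1| ≤ 1 ∧
    |(path ω k).1.2 - (path ω (k + 1)).1.2| ≤ 1 := by
  have h := H984H.path_sd ω (Nat.le_succ k)
  unfold H984H.sd at h
  have e : ((k + 1 - k : ℕ) : ℤ) = 1 := by
    rw [Nat.add_sub_cancel_left]; rfl
  rw [show k.succ = k + 1 from rfl, e] at h
  exact ⟨(le_max_left _ _).trans h, (le_max_right _ _).trans h⟩

/-- Going back from a visit of a box to the last time before it outside of a larger box. -/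
theorem go_back {ω : Conf} {c : ℤ × ℤ} {K K' : ℕ} (hK : K + 2 ≤ K') {i : ℕ}
    (hi : BX c K (path ω i).1) (h0 : ¬ BX c K (path ω 0).1) :
    ∃ τ : St, ¬ BX c K τ.1 ∧
      Reach (opn ω ∩ EB (c.1 - K') (c.1 + K') (c.2 - K') (c.2 + K')) (path ω i).1 τ.1 ∧
      Reach (dl '' ((opn ω)ᶜ ∩ EB (c.1 - K') (c.1 + K') (c.2 - K') (c.2 + K'))) (face (path ω i))
        (face τ) := by
  induction i with
  | zero => exact absurd hi h0
  | succ i ih =>
    obtain ⟨h1, h2⟩ := loc_step (C := opn ω) (K' := K') (by omega) hi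
    rw [nxt_path] at h1 h2
    by_cases h : BX c K (path ω i).1
    · obtain ⟨τ, t1, t2, t3⟩ := ih h
      exact ⟨τ, t1, h1.trans t2, h2.trans t3⟩
    · exact ⟨path ω i, h, h1, h2⟩

/-- Multiplication by `t`. -/
def mT (t : unitInterval) : C(unitInterval, unitInterval) :=
  ⟨fun s => t * s, by fun_prop⟩

/-- **three arms of the path stopped at the time `t`** -/
theorem det3 {n : ℕ} (hn : 0 < n) {z : ℂ} {r d ζ : ℝ} (hδr : sc n ≤ r) (hd : 1024 * r ≤ d)
    (hζ : 8 * sc n ≤ ζ) (hball : Metric.ball z d ⊆ {w : ℂ | 0 < w.im}) {ω : Conf}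
    {t : unitInterval} (hE : (curve n ω).comp (mT t) ∈ Ev3 z r (d / 8) ζ)
    (htip : d / 2 < dist (curve n ω t) z) {ρ : ℤ}
    (hρ : Big n (vz (sc n) 0 z) (⌊(d / 4) / (8 * sc n)⌋₊ + ⌈(d / 8) / sc n⌉₊ + 9) ρ) :
    A3v (vz (sc n) 0 z) (⌈r / sc n⌉₊ + 3 + 2) (⌊(d / 4) / (8 * sc n)⌋₊ - 2) ↑(cut ω ρ) ∨
      A3v (vz (sc n) 0 z) (⌈r / sc n⌉₊ + 3 + 2) (⌊(d / 4) / (8 * sc n)⌋₊ - 2)
        (dl '' (↑(cut ω ρ) : Set Edg)ᶜ) := by
  obtain ⟨⟨s, hs⟩, -, g, hg0, hg1, hg⟩ := hE
  set δ := sc n with hδdef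
  have hδ : 0 < δ := sc_pos hn
  have hr : 0 < r := hδ.trans_le hδr
  have hd0 : 0 < d := by linarith
  set K : ℕ := ⌊(d / 4) / (8 * δ)⌋₊ + ⌈(d / 8) / δ⌉₊ + 9 with hKdef
  have hKr : (K : ℝ) * δ ≤ 3 * d / 16 := by
    have h1 : (⌊(d / 4) / (8 * δ)⌋₊ : ℝ) ≤ (d / 4) / (8 * δ) := Nat.floor_le (by positivity)
    have h2 : (⌈(d / 8) / δ⌉₊ : ℝ) < (d / 8) / δ + 1 := Nat.ceil_lt_add_one (by positivity)
    have h3 : (d / 4) / (8 * δ) * δ = d / 32 := by field_simp; norm_num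
    have h4 : (d / 8) / δ * δ = d / 8 := by field_simp
    rw [hKdef]
    push_cast
    nlinarith
  have hst : ∀ k < n, dist (((δ : ℝ) : ℂ) * gam ω k) (((δ : ℝ) : ℂ) * gam ω (k + 1)) ≤ δ / 2 :=
    fun k _ => gstep hδ.le ω k
  have hcur : curve n ω = H984N.pl n (fun k => ((δ : ℝ) : ℂ) * gam ω k) := by
    rw [curve_eq]
  have hs' : dist (curve n ω (t * s)) z < r := hs
  rw [hcur] at hs' htip
  obtain ⟨i, hiN, ⟨i1, i2⟩, hi⟩ := pl_close' hn hst (t * s)
  obtain ⟨m, hmN, ⟨m1, m2⟩, hm⟩ := pl_close' hn hst t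
  set f := H984N.pl n (fun k => ((δ : ℝ) : ℂ) * gam ω k) with hf
  have hn' : (0:ℝ) < n := by exact_mod_cast hn
  have hpos : ∀ k : ℕ, dist (((δ : ℝ) : ℂ) * gam ω k) (zp δ 0 (path ω k).1) ≤ δ / 2 :=
    fun k => place_near hδ.le (path ω k)
  -- the box
  have hdom : 0 < (vz δ 0 z).2 - K :=
    dom_half hδ (by linarith) hball (by linarith)
  have hboxK : ∀ w : Vtx, BX (vz δ 0 z) K w → dist (zp δ 0 w) z ≤ 3 * d / 8 + 2 * δ := by
    intro w hw
    have := of_box hδ hw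
    linarith
  have h0 : ¬ BX (vz δ 0 z) K (path ω 0).1 := by
    intro h
    have h1 : (vz δ 0 z).2 - K ≤ (path ω 0).1.2 := h.2.1
    have h2 : (path ω 0).1.2 = 0 := rfl
    omega
  have hnt : ¬ BX (vz δ 0 z) K (path ω m).1 := by
    intro h
    have h1 := hboxK _ h
    have h2 := hpos m
    have h4 := dist_triangle (((δ : ℝ) : ℂ) * gam ω m) (zp δ 0 (path ω m).1) z
    have h5 := dist_triangle (f t) (((δ : ℝ) : ℂ) * gam ω m) z
    linarith
  -- the index of the visit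
  have him : i ≤ m := by
    have h1 : ((t * s : unitInterval) : ℝ) * n ≤ (t : ℝ) * n := by
      refine mul_le_mul_of_nonneg_right ?_ hn'.le
      rw [Set.Icc.coe_mul]
      exact mul_le_of_le_one_right t.2.1 s.2.2
    have h2 : (i : ℝ) ≤ (m : ℝ) + 1 := by linarith
    have h3 : i ≤ m + 1 := by exact_mod_cast h2
    rcases Nat.lt_or_ge m i with h4 | h4
    · exfalso
      have h5 : i = m + 1 := by omega
      have h6 : (i : ℝ) = (m : ℝ) + 1 := by rw [h5]; push_cast; ring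
      have h7 : ((t * s : unitInterval) : ℝ) * n = (t : ℝ) * n := by linarith
      have h8 : (t * s : unitInterval) = t := Subtype.ext (mul_right_cancel₀ hn'.ne' h7)
      rw [h8] at hs'
      linarith
    · exact h4
  -- the path
  obtain ⟨g', g1, g2, g3, g4⟩ := FU.cut g (z := z) (ρ := d / 8) (by linarith) hg1.le
  have hN : ∀ t' u, Near δ 0 (g' t') 3 u → BX (vz δ 0 z) K u ∧ NV (Vn ω m) u := by
    intro x u hu
    have h4 := hu.dist hδ
    have h5 : dist (zp δ 0 u) z ≤ d / 8 + 6 * δ := by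
      have := dist_triangle_left (zp δ 0 u) z (g' x)
      have := g3 x
      linarith
    constructor
    · have h6 := box_of (r := d / 8 + 4 * δ) hδ (w := u) (z := z) (o := 0) (by linarith)
      have h7 : ⌈(d / 8 + 4 * δ) / δ⌉₊ + 3 ≤ K := by
        have h8 : (d / 8 + 4 * δ) / δ = (d / 8) / δ + (4 : ℕ) := by
          push_cast
          field_simp
        rw [h8, Nat.ceil_add_natCast (by positivity), hKdef]
        omega
      obtain ⟨⟨q1, q2⟩, q3, q4⟩ := h6
      refine ⟨⟨?_, ?_⟩, ?_, ?_⟩ <;> omega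
    · rintro q ⟨k, hk, he⟩
      obtain ⟨y, hy, hx⟩ := DP.pl_node hn (fun k => ((δ : ℝ) : ℂ) * gam ω k) (k := k) (by omega)
      obtain ⟨t', ht'⟩ := g4 x
      have hkm : (k : ℝ) ≤ m := by exact_mod_cast hk
      have hyt : (y : ℝ) ≤ t := by
        rw [hy, div_le_iff₀ hn']
        linarith
      obtain ⟨v, hv⟩ : ∃ v : unitInterval, t * v = y := by
        rcases eq_or_lt_of_le t.2.1 with h | h
        · refine ⟨0, ?_⟩
          rw [mul_zero]
          apply Subtype.ext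
          have h10 : (0:ℝ) ≤ y := y.2.1
          have h11 : ((0 : unitInterval) : ℝ) = 0 := rfl
          rw [h11]
          linarith
        · refine ⟨⟨y / t, div_nonneg y.2.1 t.2.1, (div_le_one h).2 hyt⟩, ?_⟩
          apply Subtype.ext
          rw [Set.Icc.coe_mul]
          show (t : ℝ) * (y / t) = y
          field_simp
      have h7 := hg v t'
      rw [← ht'] at h7
      have h7' : ζ < dist (g' x) (curve n ω y) := by
        rw [← hv]
        exact h7
      have h8 : dist (g' x) (curve n ω y) ≤ 6 * δ + δ / 2 := by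
        have e1 : curve n ω y = ((δ : ℝ) : ℂ) * gam ω k := by
          rw [hcur]
          exact hx
        rw [e1]
        have h9 := hpos k
        rw [he] at h9
        have h10 := dist_triangle_right (g' x) (((δ : ℝ) : ℂ) * gam ω k) (zp δ 0 u)
        have h11 : dist (g' x) (zp δ 0 u) ≤ 6 * δ := by linarith
        simp only at h9
        linarith
      linarith
  have hs1 := (sizes (r := r) (d := d / 4) hδ hδr (by linarith)).1
  have hs2 := (sizes (r := r) (d := d / 4) hδ hδr (by linarith)).2.1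
  have hpi : dist (zp δ 0 (path ω i).1) z ≤ r + 2 * δ := by
    have h1 := hpos i
    have h2 := dist_triangle_left (zp δ 0 (path ω i).1) z (((δ : ℝ) : ℂ) * gam ω i)
    have h3 := dist_triangle_left (((δ : ℝ) : ℂ) * gam ω i) z (f (t * s))
    linarith
  have hbi : BX (vz δ 0 z) (⌊(d / 4) / (8 * δ)⌋₊ - 1) (path ω i).1 := by
    obtain ⟨⟨q1, q2⟩, q3, q4⟩ := box_of hδ hpi
    refine ⟨⟨?_, ?_⟩, ?_, ?_⟩ <;> omega
  obtain ⟨τ, t1, t2, t3⟩ := go_back (K' := K) (by omega) hbi (fun h => by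
    obtain ⟨⟨q1, q2⟩, q3, q4⟩ := h
    refine h0 ⟨⟨?_, ?_⟩, ?_, ?_⟩ <;> omega)
  have hmain := det_loc (d := d / 4) hδ hδr (by linarith) (C := opn ω) (A := Vn ω m) (K := K)
    (by omega) (fun σ a b => Vn_inv h0 hnt σ a b) (g := g') (by rw [g1]; exact hg0)
    (by rw [g2]; linarith) hN (σ := path ω i) (τ := τ) ⟨i, him, rfl⟩ hpi t1 t2 t3
  obtain ⟨ρ1, ρ2, ρ3, ρ4⟩ := hρ
  have hEq : ∀ e ∈ EB ((vz δ 0 z).1 - K) ((vz δ 0 z).1 + K) ((vz δ 0 z).2 - K) ((vz δ 0 z).2 + K),
      (e ∈ opn ω ↔ e ∈ (↑(cut ω ρ) : Set Edg)) := by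
    intro e he
    rw [Finset.mem_coe]
    exact cut_iff hdom (by omega) (by omega) (by omega) he
  rcases hmain with h | h
  · left
    refine (A3v_congr ?_).1 h
    ext e
    constructor
    · rintro ⟨a1, a2⟩
      exact ⟨(hEq e (blk_sub_EB (by omega) a2)).1 a1, a2⟩
    · rintro ⟨a1, a2⟩
      exact ⟨(hEq e (blk_sub_EB (by omega) a2)).2 a1, a2⟩
  · right
    refine (A3v_congr (dl_blk (K := K) (by omega) ?_)).1 h
    intro e he
    rw [Set.mem_compl_iff, Set.mem_compl_iff, hEq e he]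

end Pool.Agent.TH990.HP
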