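import Pool.Agent.TH990.HP.Lim
import Pool.Agent.W424.KI.Fin

/-!
The limits of the exploration path of the half-plane in a fixed set, continued.
-/

set_option autoImplicit false

namespace Pool.Agent.TH990.HP

open H974 H12S Finset H389NS H984P H342P Pool.Agent.TH990.FU
open MeasureTheory Filter Topology Pool.Agent.W92.DP Pool.Agent.W462.DPL Pool.Agent.W424.OD
open H984H (Conf perc opn path place gam curve bx cut lawH)
open scoped ENNReal NNReal

theorem sc_tendsto {φ : ℕ → ℕ} (hφ : Tendsto φ atTop atTop) :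
    Tendsto (fun i => sc (φ i)) atTop (𝓝 0) :=
  (tendsto_rpow_neg_atTop (by norm_num : (0:ℝ) < 4/7)).comp
    (tendsto_natCast_atTop_atTop.comp hφ)

/-- the trace in a fixed set -/
theorem fix2 {φ : ℕ → ℕ} (hφ : Tendsto φ atTop atTop)
    {μ : ProbabilityMeasure C(unitInterval, ℂ)} (hμ : Tendsto (fun i => lawH (φ i)) atTop (𝓝 μ))
    (T : Set ℂ) :
    ∀ᵐ f : C(unitInterval, ℂ) ∂(μ : Measure C(unitInterval, ℂ)),
      dimH (Set.range f ∩ T ∩ Hp) ≤ dimH T - ENNReal.ofReal (1/4) ∧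
      (μH[1/4] T = 0 → Set.range f ∩ T ∩ Hp = ∅) := by
  obtain ⟨C, hC, hP⟩ := prob2
  have key := fixed_dim (μ := (μ : Measure C(unitInterval, ℂ)))
    (E := fun _ z r => E2 z r) (fun d z r => (E2_open z r).measurableSet)
    (S := fun _ f => Set.range f) ?_ Hp_open hC.le (show (0:ℝ) < 1/4 by norm_num) ?_ T
  · filter_upwards [key] with f hf
    have e : (⋃ i : ℕ, (fun (_ : ℝ) (f : C(unitInterval, ℂ)) => Set.range f)
        (1 / ((i:ℝ) + 1)) f) = Set.range f := Set.iUnion_const _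
    rw [e] at hf
    exact hf
  · rintro η d z r w f _ _ ⟨s, rfl⟩ hwz
    exact ⟨s, hwz⟩
  · intro z r d hr hrd hball
    refine (ProbabilityMeasure.le_liminf_measure_open_of_tendsto hμ (E2_open _ _)).trans ?_
    refine liminf_le_of_frequently_le (Eventually.frequently ?_)
    filter_upwards [(sc_tendsto hφ).eventually (ge_mem_nhds hr),
      (tendsto_atTop.mp hφ 1)] with i hi hi2
    exact hP z r d (φ i) hi2 hr hrd hball hi

/-- double points in a fixed set -/
theorem fix4 {φ : ℕ → ℕ} (hφ : Tendsto φ atTop atTop)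
    {μ : ProbabilityMeasure C(unitInterval, ℂ)} (hμ : Tendsto (fun i => lawH (φ i)) atTop (𝓝 μ))
    (T : Set ℂ) :
    ∀ᵐ f : C(unitInterval, ℂ) ∂(μ : Measure C(unitInterval, ℂ)),
      dimH ((⋃ i : ℕ, DPt (1 / ((i:ℝ) + 1)) f) ∩ T ∩ Hp) ≤ dimH T - ENNReal.ofReal (5/4) ∧
      (μH[5/4] T = 0 → (⋃ i : ℕ, DPt (1 / ((i:ℝ) + 1)) f) ∩ T ∩ Hp = ∅) := by
  obtain ⟨C, hC, hP⟩ := prob4
  refine fixed_dim (μ := (μ : Measure C(unitInterval, ℂ)))
    (E := fun d z r => E4 z r (d / 2)) (fun d z r => (E4_open z r (d / 2)).measurableSet)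
    (S := fun η f => DPt η f) ?_ Hp_open hC.le (show (0:ℝ) < 5/4 by norm_num) ?_ T
  · rintro η d z r w f hdη hrd ⟨s, u, t, h1, h2, h3, h4, h5⟩ hwz
    refine ⟨s, u, t, ⟨h1, h2⟩, ?_, ?_, ?_⟩
    · rw [h3]; exact hwz
    · rw [h4]; exact hwz
    · have h6 := dist_triangle (f u) z w
      rw [dist_comm z w] at h6
      linarith
  · intro z r d hr hrd hball
    refine (ProbabilityMeasure.le_liminf_measure_open_of_tendsto hμ (E4_open _ _ _)).trans ?_
    refine liminf_le_of_frequently_le (Eventually.frequently ?_)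
    filter_upwards [(sc_tendsto hφ).eventually (ge_mem_nhds hr),
      (tendsto_atTop.mp hφ 1)] with i hi hi2
    exact hP z r d (φ i) hi2 hr hrd hball hi

/-- The points which, for the path stopped at some time `t`, are accessible at the scale `η`, at
distance at least `η` from the current point. -/
def AccT (η : ℝ) (f : C(unitInterval, ℂ)) : Set ℂ :=
  {w | ∃ t : unitInterval, w ∈ FU.Acc η (f.comp (mT t)) ∧ η ≤ dist (f t) w}

/-- accessible points in a fixed set, away from the current point -/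
theorem fix3 (hU : U3) {φ : ℕ → ℕ} (hφ : Tendsto φ atTop atTop)
    {μ : ProbabilityMeasure C(unitInterval, ℂ)} (hμ : Tendsto (fun i => lawH (φ i)) atTop (𝓝 μ))
    (T : Set ℂ) :
    ∀ᵐ f : C(unitInterval, ℂ) ∂(μ : Measure C(unitInterval, ℂ)),
      dimH ((⋃ i : ℕ, AccT (1 / ((i:ℝ) + 1)) f) ∩ T ∩ Hp) ≤ dimH T - ENNReal.ofReal (2/3) ∧
      (μH[2/3] T = 0 → (⋃ i : ℕ, AccT (1 / ((i:ℝ) + 1)) f) ∩ T ∩ Hp = ∅) := by
  obtain ⟨C, hC, hP⟩ := prob3 hU
  refine fixed_dim (μ := (μ : Measure C(unitInterval, ℂ)))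
    (E := fun d z r => ⋃ j : ℕ, E3 z r d (1 / ((j:ℝ) + 1)))
    (fun d z r => (isOpen_iUnion fun j => E3_open _ _ _ _).measurableSet)
    (S := fun η f => AccT η f) ?_ Hp_open hC.le
    (show (0:ℝ) < 2/3 by norm_num) ?_ T
  · rintro η d z r w f hdη hrd ⟨t, hw, hw1⟩ hwz
    have hr0 : 0 < r := dist_nonneg.trans_lt hwz
    have h6 := dist_triangle (f t) z w
    rw [dist_comm z w] at h6
    obtain ⟨j, hj⟩ := Set.mem_iUnion.1 (E3U_of (ρ := d / 8) hw hwz (by linarith))
    exact Set.mem_iUnion.2 ⟨j, t, hj, by linarith⟩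
  · intro z r d hr hrd hball
    show (μ : Measure C(unitInterval, ℂ)) (⋃ j : ℕ, E3 z r d (1 / ((j:ℝ) + 1))) ≤ _
    have hmono : Monotone (fun j : ℕ => E3 z r d (1 / ((j:ℝ) + 1))) := by
      rintro i j hij f ⟨t, hf, hf'⟩
      exact ⟨t, Ev3_anti (Nat.one_div_le_one_div hij) hf, hf'⟩
    rw [hmono.measure_iUnion]
    refine iSup_le fun j => ?_
    refine (ProbabilityMeasure.le_liminf_measure_open_of_tendsto hμ (E3_open _ _ _ _)).trans ?_
    refine liminf_le_of_frequently_le (Eventually.frequently ?_)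
    have hpos : (0:ℝ) < 1 / ((j:ℝ) + 1) / 8 := by positivity
    filter_upwards [(sc_tendsto hφ).eventually (ge_mem_nhds hr),
      (sc_tendsto hφ).eventually (ge_mem_nhds hpos),
      (tendsto_atTop.mp hφ 1)] with i hi hi3 hi2
    exact hP z r d _ (φ i) hi2 hr hrd hball hi (by linarith)

end Pool.Agent.TH990.HP
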