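import Pool.Agent.TH990.HP.Det3
import Pool.Agent.TH990.FU.CovF
import Pool.Agent.TH990.FU.Dual
import Pool.Agent.TH990.FU.Ex3
import Pool.Agent.W347.DPAA
import Pool.Agent.H985R3.TA.Main
import Pool.Agent.H985R3.TA.STA

/-!
The limits of the exploration path of the half-plane in a fixed set.
-/

set_option autoImplicit false

namespace Pool.Agent.TH990.HP

open H974 H12S Finset H389NS H984P H342P Pool.Agent.TH990.FU
open MeasureTheory Filter Topology Pool.Agent.W92.DP Pool.Agent.W462.DPL Pool.Agent.W424.OD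
open H984H (Conf perc opn path place gam curve bx cut lawH)
open scoped ENNReal NNReal

/-- The open half-plane. -/
def Hp : Set ℂ := {w | 0 < w.im}

theorem Hp_open : IsOpen Hp := isOpen_lt continuous_const Complex.continuous_im

/-- One visit. -/
def E2 (z : ℂ) (r : ℝ) : Set C(unitInterval, ℂ) := {f | ∃ s : unitInterval, dist (f s) z < r}

/-- Two visits with an excursion in between. -/
def E4 (z : ℂ) (r ρ : ℝ) : Set C(unitInterval, ℂ) :=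
  {f | ∃ s u t : unitInterval, (s ≤ u ∧ u ≤ t) ∧ dist (f s) z < r ∧ dist (f t) z < r ∧
    ρ < dist (f u) z}

/-- A visit, by the path stopped at some time `t`, of a point which is accessible at this time,
away from the current point. -/
def E3 (z : ℂ) (r d ζ : ℝ) : Set C(unitInterval, ℂ) :=
  {f | ∃ t : unitInterval, f.comp (mT t) ∈ Ev3 z r (d / 8) ζ ∧ d / 2 < dist (f t) z}

theorem ev_cont (s : unitInterval) (z : ℂ) :
    Continuous (fun f : C(unitInterval, ℂ) => dist (f s) z) :=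
  (continuous_eval_const s).dist continuous_const

theorem E2_open (z : ℂ) (r : ℝ) : IsOpen (E2 z r) := by
  have h : E2 z r = ⋃ s : unitInterval, {f : C(unitInterval, ℂ) | dist (f s) z < r} := by
    ext f
    simp only [E2, Set.mem_ofPred_eq, Set.mem_iUnion]
  rw [h]
  exact isOpen_iUnion fun s => isOpen_lt (ev_cont s z) continuous_const

theorem E4_open (z : ℂ) (r ρ : ℝ) : IsOpen (E4 z r ρ) := by
  have h : E4 z r ρ = ⋃ (s : unitInterval) (u : unitInterval) (t : unitInterval)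
      (_ : s ≤ u ∧ u ≤ t), ({f : C(unitInterval, ℂ) | dist (f s) z < r} ∩
        {f : C(unitInterval, ℂ) | dist (f t) z < r} ∩
        {f : C(unitInterval, ℂ) | ρ < dist (f u) z}) := by
    ext p
    simp only [E4, Set.mem_ofPred_eq, Set.mem_iUnion, Set.mem_inter_iff, exists_prop]
    constructor
    · rintro ⟨s, u, t, h1, h2, h3, h4⟩
      exact ⟨s, u, t, h1, ⟨h2, h3⟩, h4⟩
    · rintro ⟨s, u, t, h1, ⟨h2, h3⟩, h4⟩
      exact ⟨s, u, t, h1, h2, h3, h4⟩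
  rw [h]
  refine isOpen_iUnion fun s => isOpen_iUnion fun u => isOpen_iUnion fun t =>
    isOpen_iUnion fun _ => ?_
  exact ((isOpen_lt (ev_cont s z) continuous_const).inter
    (isOpen_lt (ev_cont t z) continuous_const)).inter (isOpen_lt continuous_const (ev_cont u z))

theorem E3_open (z : ℂ) (r d ζ : ℝ) : IsOpen (E3 z r d ζ) := by
  have h : E3 z r d ζ = ⋃ t : unitInterval,
      ((fun f : C(unitInterval, ℂ) => f.comp (mT t)) ⁻¹' Ev3 z r (d / 8) ζ ∩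
        {f : C(unitInterval, ℂ) | d / 2 < dist (f t) z}) := by
    ext f
    simp only [E3, Set.mem_ofPred_eq, Set.mem_iUnion, Set.mem_inter_iff, Set.mem_preimage]
  rw [h]
  exact isOpen_iUnion fun t => ((Ev3_open z r (d / 8) ζ).preimage
    (ContinuousMap.continuous_precomp (mT t))).inter (isOpen_lt continuous_const (ev_cont t z))

/-- transfer of probabilities -/
theorem law_le {n : ℕ} {G : Set C(unitInterval, ℂ)} (hG : IsOpen G) {ρ : ℤ}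
    {A : Finset Edg → Prop} {x : ℝ} (h : ∀ ω, curve n ω ∈ G → A (cut ω ρ))
    (hx : Pr (fun _ => (1/2:ℝ)) (bx ρ).edges A ≤ x) :
    (lawH n : Measure C(unitInterval, ℂ)) G ≤ ENNReal.ofReal x := by
  rw [H984H.lawH_apply n hG.measurableSet]
  apply ENNReal.ofReal_le_ofReal
  have h1 : perc.real {ω | curve n ω ∈ G} ≤ perc.real {ω | A (cut ω ρ)} :=
    measureReal_mono (fun ω hω => h ω hω)
  rw [H984H.perc_cut ρ A] at h1
  exact h1.trans hx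

theorem law_one {n : ℕ} {G : Set C(unitInterval, ℂ)} {x : ℝ} (hx : 1 ≤ x) :
    (lawH n : Measure C(unitInterval, ℂ)) G ≤ ENNReal.ofReal x :=
  prob_le_one.trans (by rw [← ENNReal.ofReal_one]; exact ENNReal.ofReal_le_ofReal hx)

theorem big_pow {r d C M s : ℝ} (hr : 0 < r) (hrd : r ≤ d) (hC : 1 ≤ C) (hM : 1 ≤ M) (hs : 0 < s)
    (h : ¬ M * r ≤ d) : 1 ≤ C * M ^ s * (r / d) ^ s := by
  push Not at h
  have hd0 : 0 < d := hr.trans_le hrd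
  have h2 : 1 ≤ M * (r / d) := by
    rw [← mul_div_assoc, le_div_iff₀ hd0]
    linarith
  have h3 : 1 ≤ (M * (r / d)) ^ s := Real.one_le_rpow h2 hs.le
  rw [Real.mul_rpow (by linarith) (by positivity)] at h3
  nlinarith

theorem blk_sub {ρ : ℤ} {c : ℤ × ℤ} {K k : ℕ} (h0 : 0 < c.2 - K) (h1 : -ρ < c.1 - K)
    (h2 : c.1 + K < ρ) (h3 : c.2 + K < ρ) (hk : k ≤ K) : blk c k ⊆ (bx ρ).edges := by
  refine RE_subset ?_ ?_ ?_ ?_
  · show -ρ ≤ _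
    omega
  · show _ ≤ ρ
    omega
  · omega
  · show _ ≤ ρ
    omega

/-- probability of one visit -/
theorem prob2 : ∃ C : ℝ, 0 < C ∧ ∀ (z : ℂ) (r d : ℝ) (n : ℕ), 0 < n → 0 < r → r ≤ d →
    Metric.ball z d ⊆ Hp → sc n ≤ r →
      (lawH n : Measure C(unitInterval, ℂ)) (E2 z r) ≤
        ENNReal.ofReal (C * (r / d) ^ (1/4 : ℝ)) := by
  obtain ⟨C2, hC2, hA⟩ : ∃ C : ℝ, 0 < C ∧ H984H.AnnUp C := by
    obtain ⟨C, hC, h⟩ := H985T.st_A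
    exact ⟨C, hC, fun r R hr hR c1 c2 S => h r R hr hR c1 c2 S⟩
  refine ⟨(C2 + 1) * 256 ^ (1/4 : ℝ), by positivity, ?_⟩
  intro z r d n hn hr hrd hball hδr
  by_cases h256 : 256 * r ≤ d
  swap
  · exact law_one (big_pow hr hrd (by linarith) (by norm_num) (by norm_num) h256)
  have hδ : 0 < sc n := sc_pos hn
  have hd0 : 0 < d := hr.trans_le hrd
  obtain ⟨s1, s2, s3, s4⟩ := sizes hδ hδr h256
  obtain ⟨ρ, hρ1, hρ⟩ := exists_big n (vz (sc n) 0 z) ⌊d / (8 * sc n)⌋₊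
  refine law_le (E2_open z r) (ρ := ρ) (fun ω hω => det2 hn hδr h256 hball hω hρ) ?_
  have hp := H984H.two_pr hA (X := (bx ρ).edges \ RE ((vz (sc n) 0 z).1 - (⌈r / sc n⌉₊ + 3 : ℕ))
        ((vz (sc n) 0 z).1 + (⌈r / sc n⌉₊ + 3 : ℕ)) ((vz (sc n) 0 z).2 - (⌈r / sc n⌉₊ + 3 : ℕ))
        ((vz (sc n) 0 z).2 + (⌈r / sc n⌉₊ + 3 : ℕ))) (S := (bx ρ).edges) Finset.sdiff_subset
        (vz (sc n) 0 z) (r := ⌈r / sc n⌉₊ + 3 + 1) (R := ⌊d / (8 * sc n)⌋₊) (by omega) (by omega)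
  refine hp.trans ?_
  have hpow : (((⌈r / sc n⌉₊ + 3 + 1 : ℕ) : ℝ) / (⌊d / (8 * sc n)⌋₊ : ℕ)) ^ (1/4 : ℝ) ≤
      (256 * (r / d)) ^ (1/4 : ℝ) := by
    refine Real.rpow_le_rpow (by positivity) (le_trans ?_ s4) (by norm_num)
    have e1 : ((⌈r / sc n⌉₊ + 3 + 1 : ℕ) : ℝ) ≤ ((⌈r / sc n⌉₊ + 3 + 2 : ℕ) : ℝ) := by
      exact_mod_cast (by omega : ⌈r / sc n⌉₊ + 3 + 1 ≤ ⌈r / sc n⌉₊ + 3 + 2)
    have e2 : ((⌊d / (8 * sc n)⌋₊ - 2 : ℕ) : ℝ) ≤ ((⌊d / (8 * sc n)⌋₊ : ℕ) : ℝ) := by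
      exact_mod_cast Nat.sub_le _ _
    have e3 : (0:ℝ) < ((⌊d / (8 * sc n)⌋₊ - 2 : ℕ) : ℝ) := by
      have : 0 < ⌊d / (8 * sc n)⌋₊ - 2 := by omega
      exact_mod_cast this
    exact div_le_div₀ (by positivity) e1 e3 e2
  rw [Real.mul_rpow (by norm_num) (by positivity)] at hpow
  have hy : 0 ≤ (256:ℝ) ^ (1/4 : ℝ) * (r / d) ^ (1/4 : ℝ) := by positivity
  nlinarith

/-- probability of two visits -/
theorem prob4 : ∃ C : ℝ, 0 < C ∧ ∀ (z : ℂ) (r d : ℝ) (n : ℕ), 0 < n → 0 < r → r ≤ d →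
    Metric.ball z d ⊆ Hp → sc n ≤ r →
      (lawH n : Measure C(unitInterval, ℂ)) (E4 z r (d / 2)) ≤
        ENNReal.ofReal (C * (r / d) ^ (5/4 : ℝ)) := by
  obtain ⟨Ca, hCa, hA'⟩ := Pool.Agent.W347.DPAA.aa
  obtain ⟨Cd, hCd, hD'⟩ := Pool.Agent.W571.DPad.ad Pool.Agent.W347.DPAA.aa
  refine ⟨(Ca + Cd + 1) * 256 ^ (5/4 : ℝ), by positivity, ?_⟩
  intro z r d n hn hr hrd hball hδr
  by_cases h256 : 256 * r ≤ d
  swap
  · exact law_one (big_pow hr hrd (by linarith) (by norm_num) (by norm_num) h256)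
  have hδ : 0 < sc n := sc_pos hn
  have hd0 : 0 < d := hr.trans_le hrd
  obtain ⟨s1, s2, s3, s4⟩ := sizes hδ hδr h256
  obtain ⟨ρ, hρ1, hρ⟩ := exists_big n (vz (sc n) 0 z) ⌊d / (8 * sc n)⌋₊
  have hdom := dom_half (K := ⌊d / (8 * sc n)⌋₊) hδ (by linarith) hball
    (k_small hδ (by linarith))
  refine law_le (E4_open z r (d / 2)) (ρ := ρ)
    (A := fun F => A4a (vz (sc n) 0 z) (⌈r / sc n⌉₊ + 3 + 2) (⌊d / (8 * sc n)⌋₊ - 2) ↑F ∨
      A4d (vz (sc n) 0 z) (⌈r / sc n⌉₊ + 3 + 2) (⌊d / (8 * sc n)⌋₊ - 2) ↑F)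
    (fun ω hω => det4 hn hδr h256 hball hω hρ) ?_
  obtain ⟨ρ1, ρ2, ρ3, ρ4⟩ := hρ
  have h1 := hA' (vz (sc n) 0 z) (⌈r / sc n⌉₊ + 3 + 2) (⌊d / (8 * sc n)⌋₊ - 2) (by omega) s2
    (bx ρ).edges (blk_sub hdom ρ2 ρ3 ρ4 (by omega))
  have h2 := hD' (vz (sc n) 0 z) (⌈r / sc n⌉₊ + 3 + 2) (⌊d / (8 * sc n)⌋₊ - 2) (by omega) s2
    (bx ρ).edges (blk_sub hdom ρ2 ρ3 ρ4 (by omega))
  have hor := Pr_or_le okh (bx ρ).edges
    (fun F => A4a (vz (sc n) 0 z) (⌈r / sc n⌉₊ + 3 + 2) (⌊d / (8 * sc n)⌋₊ - 2) ↑F)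
    (fun F => A4d (vz (sc n) 0 z) (⌈r / sc n⌉₊ + 3 + 2) (⌊d / (8 * sc n)⌋₊ - 2) ↑F)
  have hpow : (((⌈r / sc n⌉₊ + 3 + 2 : ℕ) : ℝ) / ((⌊d / (8 * sc n)⌋₊ - 2 : ℕ) : ℝ)) ^ (5/4 : ℝ) ≤
      (256 * (r / d)) ^ (5/4 : ℝ) :=
    Real.rpow_le_rpow (by positivity) s4 (by norm_num)
  have h3 := mul_le_mul_of_nonneg_left hpow hCa.le
  have h4 := mul_le_mul_of_nonneg_left hpow hCd.le
  refine (hor.trans (add_le_add (h1.trans h3) (h2.trans h4))).trans ?_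
  rw [Real.mul_rpow (by norm_num) (by positivity)]
  have hy : 0 ≤ (256:ℝ) ^ (5/4 : ℝ) * (r / d) ^ (5/4 : ℝ) := by positivity
  nlinarith

/-- probability of an accessible point -/
theorem prob3 (hU : U3) : ∃ C : ℝ, 0 < C ∧ ∀ (z : ℂ) (r d ζ : ℝ) (n : ℕ), 0 < n → 0 < r → r ≤ d →
    Metric.ball z d ⊆ Hp → sc n ≤ r → 8 * sc n ≤ ζ →
      (lawH n : Measure C(unitInterval, ℂ)) (E3 z r d ζ) ≤
        ENNReal.ofReal (C * (r / d) ^ (2/3 : ℝ)) := by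
  obtain ⟨Cd, hCd, hD'⟩ := u3d hU
  obtain ⟨Ca, hCa, hA'⟩ := hU
  refine ⟨(Ca + Cd + 1) * 1024 ^ (2/3 : ℝ), by positivity, ?_⟩
  intro z r d ζ n hn hr hrd hball hδr hζ
  by_cases h256 : 1024 * r ≤ d
  swap
  · exact law_one (big_pow hr hrd (by linarith) (by norm_num) (by norm_num) h256)
  have hδ : 0 < sc n := sc_pos hn
  have hd0 : 0 < d := hr.trans_le hrd
  obtain ⟨s1, s2, s3, s4⟩ := sizes (r := r) (d := d / 4) hδ hδr (by linarith)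
  set K : ℕ := ⌊(d / 4) / (8 * sc n)⌋₊ + ⌈(d / 8) / sc n⌉₊ + 9 with hKdef
  have hKr : (K : ℝ) * sc n ≤ 3 * d / 16 := by
    have h1 : (⌊(d / 4) / (8 * sc n)⌋₊ : ℝ) ≤ (d / 4) / (8 * sc n) :=
      Nat.floor_le (by positivity)
    have h2 : (⌈(d / 8) / sc n⌉₊ : ℝ) < (d / 8) / sc n + 1 := Nat.ceil_lt_add_one (by positivity)
    have h3 : (d / 4) / (8 * sc n) * sc n = d / 32 := by field_simp; norm_num
    have h4 : (d / 8) / sc n * sc n = d / 8 := by field_simp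
    rw [hKdef]
    push_cast
    nlinarith
  obtain ⟨ρ, hρ1, hρ⟩ := exists_big n (vz (sc n) 0 z) K
  have hdom : 0 < (vz (sc n) 0 z).2 - K := dom_half hδ (by linarith) hball (by linarith)
  refine law_le (E3_open z r d ζ) (ρ := ρ)
    (A := fun F => A3v (vz (sc n) 0 z) (⌈r / sc n⌉₊ + 3 + 2) (⌊(d / 4) / (8 * sc n)⌋₊ - 2) ↑F ∨
      A3v (vz (sc n) 0 z) (⌈r / sc n⌉₊ + 3 + 2) (⌊(d / 4) / (8 * sc n)⌋₊ - 2)
        (dl '' (↑F : Set Edg)ᶜ))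
    (fun ω hω => by
      obtain ⟨t, h1, h2⟩ := hω
      exact det3 hn hδr h256 hζ hball h1 h2 hρ) ?_
  obtain ⟨ρ1, ρ2, ρ3, ρ4⟩ := hρ
  have h1 := hA' (vz (sc n) 0 z) (⌈r / sc n⌉₊ + 3 + 2) (⌊(d / 4) / (8 * sc n)⌋₊ - 2) (by omega) s2
    (bx ρ).edges (blk_sub hdom ρ2 ρ3 ρ4 (by omega))
  have h2 := hD' (vz (sc n) 0 z) (⌈r / sc n⌉₊ + 3 + 2) (⌊(d / 4) / (8 * sc n)⌋₊ - 2) (by omega) s2
    (bx ρ).edges (blk_sub hdom ρ2 ρ3 ρ4 (by omega))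
  have hor := Pr_or_le okh (bx ρ).edges
    (fun F => A3v (vz (sc n) 0 z) (⌈r / sc n⌉₊ + 3 + 2) (⌊(d / 4) / (8 * sc n)⌋₊ - 2) ↑F)
    (fun F => A3v (vz (sc n) 0 z) (⌈r / sc n⌉₊ + 3 + 2) (⌊(d / 4) / (8 * sc n)⌋₊ - 2)
      (dl '' (↑F : Set Edg)ᶜ))
  have hpow : (((⌈r / sc n⌉₊ + 3 + 2 : ℕ) : ℝ) /
      ((⌊(d / 4) / (8 * sc n)⌋₊ - 2 : ℕ) : ℝ)) ^ (2/3 : ℝ) ≤ (1024 * (r / d)) ^ (2/3 : ℝ) := by
    refine Real.rpow_le_rpow (by positivity) (s4.trans (le_of_eq ?_)) (by norm_num)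
    field_simp
    norm_num
  have h3 := mul_le_mul_of_nonneg_left hpow hCa.le
  have h4 := mul_le_mul_of_nonneg_left hpow hCd.le
  refine (hor.trans (add_le_add (h1.trans h3) (h2.trans h4))).trans ?_
  rw [Real.mul_rpow (by norm_num) (by positivity)]
  have hy : 0 ≤ (1024:ℝ) ^ (2/3 : ℝ) * (r / d) ^ (2/3 : ℝ) := by positivity
  nlinarith

end Pool.Agent.TH990.HP
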