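import Pool.Agent.TH990.FU.Geo

/-!
Three arms from a path of the interface which starts and ends outside of a box.
-/

set_option autoImplicit false

namespace Pool.Agent.TH990.HP

open H974 H12S Finset H389NS H984P H984N H342P Pool.Agent.TH990.FU
open MeasureTheory Filter Topology Pool.Agent.W92.DP Pool.Agent.W462.DPL Pool.Agent.W424.OD

/-- Clamping of a state, first coordinate. -/
def cX (a b : ℤ) (σ : St) : St :=
  if σ.1.1 < a then ((a, σ.1.2), match σ.2 with | .ne => .nw | .se => .sw | q => q)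
  else if b < σ.1.1 then ((b, σ.1.2), match σ.2 with | .nw => .ne | .sw => .se | q => q)
  else σ

/-- Clamping of a state, second coordinate. -/
def cY (c d : ℤ) (σ : St) : St :=
  if σ.1.2 < c then ((σ.1.1, c), match σ.2 with | .ne => .se | .nw => .sw | q => q)
  else if d < σ.1.2 then ((σ.1.1, d), match σ.2 with | .se => .ne | .sw => .nw | q => q)
  else σ

/-- Clamping of a state to a box. -/
def cB (a b c d : ℤ) (σ : St) : St := cX a b (cY c d σ)

theorem cB_in {a b c d : ℤ} {σ : St} (h : inR a b c d σ.1) : cB a b c d σ = σ := by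
  obtain ⟨⟨h1, h2⟩, h3, h4⟩ := h
  have e1 : cY c d σ = σ := by
    unfold cY
    rw [if_neg (by omega), if_neg (by omega)]
  unfold cB
  rw [e1]
  unfold cX
  rw [if_neg (by omega), if_neg (by omega)]

theorem relH {α : St → ZMod 2} {a b c d : ℤ} (hab : a ≤ b) (hcd : c ≤ d)
    (hH : ∀ x y : ℤ, a ≤ x → x + 1 ≤ b → c ≤ y → y ≤ d →
      α ((x, y), .ne) + α ((x + 1, y), .nw) + (α ((x + 1, y), .sw) + α ((x, y), .se)) = 0)
    (x y : ℤ) : α (cB a b c d ((x, y), .ne)) + α (cB a b c d ((x + 1, y), .nw)) +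
      (α (cB a b c d ((x + 1, y), .sw)) + α (cB a b c d ((x, y), .se))) = 0 := by
  have two : ∀ z : ZMod 2, z + z = 0 := zmod2_add_self
  rcases lt_or_ge y c with hy | hy
  · have e1 : cY c d ((x, y), .ne) = cY c d ((x, y), .se) := by
      unfold cY; simp only [if_pos hy]
    have e2 : cY c d ((x + 1, y), .nw) = cY c d ((x + 1, y), .sw) := by
      unfold cY; simp only [if_pos hy]
    unfold cB
    rw [e1, e2]
    have h1 := two (α (cX a b (cY c d ((x, y), .se))))
    have h2 := two (α (cX a b (cY c d ((x + 1, y), .sw))))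
    linear_combination h1 + h2
  rcases lt_or_ge d y with hy' | hy'
  · have e1 : cY c d ((x, y), .se) = cY c d ((x, y), .ne) := by
      unfold cY; simp only [if_neg (not_lt.2 hy), if_pos hy']
    have e2 : cY c d ((x + 1, y), .sw) = cY c d ((x + 1, y), .nw) := by
      unfold cY; simp only [if_neg (not_lt.2 hy), if_pos hy']
    unfold cB
    rw [e1, e2]
    have h1 := two (α (cX a b (cY c d ((x, y), .ne))))
    have h2 := two (α (cX a b (cY c d ((x + 1, y), .nw))))
    linear_combination h1 + h2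
  have eY : ∀ (x : ℤ) (q : Q4), cY c d ((x, y), q) = ((x, y), q) := by
    intro x q
    unfold cY
    simp only [if_neg (not_lt.2 hy), if_neg (not_lt.2 hy')]
  unfold cB
  rw [eY, eY, eY, eY]
  rcases lt_or_ge x a with hx | hx
  · have e1 : cX a b ((x, y), .ne) = ((a, y), .nw) := by
      unfold cX; simp only [if_pos hx]
    have e2 : cX a b ((x, y), .se) = ((a, y), .sw) := by
      unfold cX; simp only [if_pos hx]
    have e3 : cX a b ((x + 1, y), .nw) = ((a, y), .nw) := by
      unfold cX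
      rcases lt_or_ge (x + 1) a with h | h
      · simp only [if_pos h]
      · simp only [if_neg (not_lt.2 h)]
        rw [if_neg (by omega), show x + 1 = a by omega]
    have e4 : cX a b ((x + 1, y), .sw) = ((a, y), .sw) := by
      unfold cX
      rcases lt_or_ge (x + 1) a with h | h
      · simp only [if_pos h]
      · simp only [if_neg (not_lt.2 h)]
        rw [if_neg (by omega), show x + 1 = a by omega]
    rw [e1, e2, e3, e4]
    have h1 := two (α ((a, y), .nw))
    have h2 := two (α ((a, y), .sw))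
    linear_combination h1 + h2
  rcases lt_or_ge b (x + 1) with hx' | hx'
  · have hxa : ¬ x + 1 < a := by omega
    have e1 : cX a b ((x + 1, y), .nw) = ((b, y), .ne) := by
      unfold cX; simp only [if_neg hxa, if_pos hx']
    have e2 : cX a b ((x + 1, y), .sw) = ((b, y), .se) := by
      unfold cX; simp only [if_neg hxa, if_pos hx']
    have e3 : cX a b ((x, y), .ne) = ((b, y), .ne) := by
      unfold cX
      simp only [if_neg (not_lt.2 hx)]
      rcases lt_or_ge b x with h | h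
      · simp only [if_pos h]
      · rw [if_neg (not_lt.2 h), show x = b by omega]
    have e4 : cX a b ((x, y), .se) = ((b, y), .se) := by
      unfold cX
      simp only [if_neg (not_lt.2 hx)]
      rcases lt_or_ge b x with h | h
      · simp only [if_pos h]
      · rw [if_neg (not_lt.2 h), show x = b by omega]
    rw [e1, e2, e3, e4]
    have h1 := two (α ((b, y), .ne))
    have h2 := two (α ((b, y), .se))
    linear_combination h1 + h2
  have eX : ∀ (x : ℤ) (q : Q4), a ≤ x → x ≤ b → cX a b ((x, y), q) = ((x, y), q) := by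
    intro x q h1 h2
    unfold cX
    simp only [if_neg (not_lt.2 h1), if_neg (not_lt.2 h2)]
  rw [eX _ _ hx (by omega), eX _ _ hx (by omega), eX _ _ (by omega) hx', eX _ _ (by omega) hx']
  exact hH x y hx hx' hy hy'

theorem relV {α : St → ZMod 2} {a b c d : ℤ} (hab : a ≤ b) (hcd : c ≤ d)
    (hV : ∀ x y : ℤ, a ≤ x → x ≤ b → c ≤ y → y + 1 ≤ d →
      α ((x, y), .nw) + α ((x, y), .ne) + (α ((x, y + 1), .sw) + α ((x, y + 1), .se)) = 0)
    (x y : ℤ) : α (cB a b c d ((x, y), .nw)) + α (cB a b c d ((x, y), .ne)) +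
      (α (cB a b c d ((x, y + 1), .sw)) + α (cB a b c d ((x, y + 1), .se))) = 0 := by
  have two : ∀ z : ZMod 2, z + z = 0 := zmod2_add_self
  have key : ∀ (P : St → ZMod 2), (P ((x, y), .nw) + P ((x, y), .ne) = 0 ∧
      P ((x, y + 1), .sw) + P ((x, y + 1), .se) = 0) →
      P ((x, y), .nw) + P ((x, y), .ne) + (P ((x, y + 1), .sw) + P ((x, y + 1), .se)) = 0 := by
    intro P h
    rw [h.1, h.2, add_zero]
  rcases lt_or_ge x a with hx | hx
  · refine key (fun σ => α (cB a b c d σ)) ?_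
    have e : ∀ (y : ℤ) (q q' : Q4), (q = .ne ∧ q' = .nw ∨ q = .se ∧ q' = .sw) →
        cX a b ((x, y), q) = ((a, y), q') ∧ cX a b ((x, y), q') = ((a, y), q') := by
      rintro y q q' (⟨rfl, rfl⟩ | ⟨rfl, rfl⟩) <;> unfold cX <;> simp only [if_pos hx, and_self]
    have f : ∀ (y : ℤ) (q q' : Q4), (q = .ne ∧ q' = .nw ∨ q = .se ∧ q' = .sw) →
        cB a b c d ((x, y), q) = cB a b c d ((x, y), q') := by
      rintro y q q' hq
      unfold cB cY
      rcases lt_or_ge y c with hy | hy
      · simp only [if_pos hy]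
        rcases hq with ⟨rfl, rfl⟩ | ⟨rfl, rfl⟩
        · rw [(e c .se .sw (Or.inr ⟨rfl, rfl⟩)).1, (e c .se .sw (Or.inr ⟨rfl, rfl⟩)).2]
        · rw [(e c .se .sw (Or.inr ⟨rfl, rfl⟩)).1, (e c .se .sw (Or.inr ⟨rfl, rfl⟩)).2]
      · simp only [if_neg (not_lt.2 hy)]
        rcases lt_or_ge d y with hy' | hy'
        · simp only [if_pos hy']
          rcases hq with ⟨rfl, rfl⟩ | ⟨rfl, rfl⟩
          · rw [(e d .ne .nw (Or.inl ⟨rfl, rfl⟩)).1, (e d .ne .nw (Or.inl ⟨rfl, rfl⟩)).2]
          · rw [(e d .ne .nw (Or.inl ⟨rfl, rfl⟩)).1, (e d .ne .nw (Or.inl ⟨rfl, rfl⟩)).2]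
        · simp only [if_neg (not_lt.2 hy')]
          rw [(e y q q' hq).1, (e y q q' hq).2]
    constructor
    · show α (cB a b c d ((x, y), .nw)) + α (cB a b c d ((x, y), .ne)) = 0
      rw [f y .ne .nw (Or.inl ⟨rfl, rfl⟩), two]
    · show α (cB a b c d ((x, y + 1), .sw)) + α (cB a b c d ((x, y + 1), .se)) = 0
      rw [f (y + 1) .se .sw (Or.inr ⟨rfl, rfl⟩), two]
  rcases lt_or_ge b x with hx' | hx'
  · refine key (fun σ => α (cB a b c d σ)) ?_
    have hxa : ¬ x < a := not_lt.2 hx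
    have e : ∀ (y : ℤ) (q q' : Q4), (q = .nw ∧ q' = .ne ∨ q = .sw ∧ q' = .se) →
        cX a b ((x, y), q) = ((b, y), q') ∧ cX a b ((x, y), q') = ((b, y), q') := by
      rintro y q q' (⟨rfl, rfl⟩ | ⟨rfl, rfl⟩) <;> unfold cX <;>
        simp only [if_neg hxa, if_pos hx', and_self]
    have f : ∀ (y : ℤ) (q q' : Q4), (q = .nw ∧ q' = .ne ∨ q = .sw ∧ q' = .se) →
        cB a b c d ((x, y), q) = cB a b c d ((x, y), q') := by
      rintro y q q' hq
      unfold cB cY
      rcases lt_or_ge y c with hy | hy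
      · simp only [if_pos hy]
        rcases hq with ⟨rfl, rfl⟩ | ⟨rfl, rfl⟩
        · rw [(e c .sw .se (Or.inr ⟨rfl, rfl⟩)).1, (e c .sw .se (Or.inr ⟨rfl, rfl⟩)).2]
        · rw [(e c .sw .se (Or.inr ⟨rfl, rfl⟩)).1, (e c .sw .se (Or.inr ⟨rfl, rfl⟩)).2]
      · simp only [if_neg (not_lt.2 hy)]
        rcases lt_or_ge d y with hy' | hy'
        · simp only [if_pos hy']
          rcases hq with ⟨rfl, rfl⟩ | ⟨rfl, rfl⟩
          · rw [(e d .nw .ne (Or.inl ⟨rfl, rfl⟩)).1, (e d .nw .ne (Or.inl ⟨rfl, rfl⟩)).2]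
          · rw [(e d .nw .ne (Or.inl ⟨rfl, rfl⟩)).1, (e d .nw .ne (Or.inl ⟨rfl, rfl⟩)).2]
        · simp only [if_neg (not_lt.2 hy')]
          rw [(e y q q' hq).1, (e y q q' hq).2]
    constructor
    · show α (cB a b c d ((x, y), .nw)) + α (cB a b c d ((x, y), .ne)) = 0
      rw [f y .nw .ne (Or.inl ⟨rfl, rfl⟩), two]
    · show α (cB a b c d ((x, y + 1), .sw)) + α (cB a b c d ((x, y + 1), .se)) = 0
      rw [f (y + 1) .sw .se (Or.inr ⟨rfl, rfl⟩), two]
  have eX : ∀ (y : ℤ) (q : Q4), cX a b ((x, y), q) = ((x, y), q) := by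
    intro y q
    unfold cX
    simp only [if_neg (not_lt.2 hx), if_neg (not_lt.2 hx')]
  rcases lt_or_ge y c with hy | hy
  · -- both rows are mapped to the lower side
    have e1 : ∀ q q' : Q4, (q = .ne ∧ q' = .se ∨ q = .nw ∧ q' = .sw) →
        cB a b c d ((x, y), q) = ((x, c), q') := by
      rintro q q' (⟨rfl, rfl⟩ | ⟨rfl, rfl⟩) <;> unfold cB cY <;> simp only [if_pos hy] <;> exact eX _ _
    have e2 : ∀ q : Q4, (q = .se ∨ q = .sw) → cB a b c d ((x, y + 1), q) = ((x, c), q) := by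
      rintro q (rfl | rfl) <;> unfold cB cY
      · rcases lt_or_ge (y + 1) c with h | h
        · simp only [if_pos h]; exact eX _ _
        · simp only [if_neg (not_lt.2 h)]
          rw [if_neg (by omega), show y + 1 = c by omega]
          exact eX _ _
      · rcases lt_or_ge (y + 1) c with h | h
        · simp only [if_pos h]; exact eX _ _
        · simp only [if_neg (not_lt.2 h)]
          rw [if_neg (by omega), show y + 1 = c by omega]
          exact eX _ _
    rw [e1 .nw .sw (Or.inr ⟨rfl, rfl⟩), e1 .ne .se (Or.inl ⟨rfl, rfl⟩), e2 .sw (Or.inr rfl),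
      e2 .se (Or.inl rfl), two]
  rcases lt_or_ge d (y + 1) with hy' | hy'
  · have hyc : ¬ y + 1 < c := by omega
    have e1 : ∀ q q' : Q4, (q = .se ∧ q' = .ne ∨ q = .sw ∧ q' = .nw) →
        cB a b c d ((x, y + 1), q) = ((x, d), q') := by
      rintro q q' (⟨rfl, rfl⟩ | ⟨rfl, rfl⟩) <;> unfold cB cY <;>
        simp only [if_neg hyc, if_pos hy'] <;> exact eX _ _
    have e2 : ∀ q : Q4, (q = .ne ∨ q = .nw) → cB a b c d ((x, y), q) = ((x, d), q) := by
      rintro q (rfl | rfl) <;> unfold cB cY <;> simp only [if_neg (not_lt.2 hy)]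
      · rcases lt_or_ge d y with h | h
        · simp only [if_pos h]; exact eX _ _
        · rw [if_neg (not_lt.2 h), show y = d by omega]
          exact eX _ _
      · rcases lt_or_ge d y with h | h
        · simp only [if_pos h]; exact eX _ _
        · rw [if_neg (not_lt.2 h), show y = d by omega]
          exact eX _ _
    rw [e1 .sw .nw (Or.inr ⟨rfl, rfl⟩), e1 .se .ne (Or.inl ⟨rfl, rfl⟩), e2 .nw (Or.inr rfl),
      e2 .ne (Or.inl rfl), two]
  have eB : ∀ (y : ℤ) (q : Q4), c ≤ y → y ≤ d → cB a b c d ((x, y), q) = ((x, y), q) :=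
    fun y q h1 h2 => cB_in ⟨⟨hx, hx'⟩, h1, h2⟩
  rw [eB _ _ hy (by omega), eB _ _ hy (by omega), eB _ _ (by omega) hy', eB _ _ (by omega) hy']
  exact hV x y hx hx' hy hy'

/-- Edges with both ends in the box. -/
def EB (a b c d : ℤ) : Set Edg := {e | inR a b c d (src e) ∧ inR a b c d (tgt e)}

theorem pot_loc {F : Set Edg} {A : Set St} {a b c d : ℤ} (hab : a ≤ b) (hcd : c ≤ d)
    (hinv : ∀ σ, inR a b c d σ.1 → inR a b c d (nxt F σ).1 → (σ ∈ A ↔ nxt F σ ∈ A)) :
    ∃ (hv hf : Vtx → ZMod 2), (∀ σ : St, hv σ.1 + hf (face σ) = b2 (cB a b c d σ ∈ A)) ∧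
      (∀ e ∈ F ∩ EB a b c d, hv (src e) = hv (tgt e)) ∧
      (∀ e, e ∉ F → e ∈ EB a b c d → hf (dsrc e) = hf (dtgt e)) := by
  have two : ∀ z : ZMod 2, z + z = 0 := zmod2_add_self
  have hop : ∀ σ, inR a b c d σ.1 → inR a b c d (mv σ).1 → H984P.ae σ ∈ F →
      b2 (σ ∈ A) = b2 (mv σ ∈ A) := fun σ h1 h2 h => by
    rw [← nxt_open h] at h2
    rw [b2_congr (hinv σ h1 h2), nxt_open h]
  have hcl : ∀ σ, inR a b c d σ.1 → H984P.ae σ ∉ F → b2 (σ ∈ A) = b2 (rt σ ∈ A) := fun σ h1 h => by
    have h2 : inR a b c d (nxt F σ).1 := by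
      rw [nxt_closed h]
      obtain ⟨⟨x, y⟩, q⟩ := σ
      cases q <;> exact h1
    rw [b2_congr (hinv σ h1 h2), nxt_closed h]
  have H0 : ∀ x y : ℤ, a ≤ x → x + 1 ≤ b → c ≤ y → y ≤ d →
      b2 (((x, y), Q4.ne) ∈ A) + b2 (((x + 1, y), Q4.nw) ∈ A) +
        (b2 (((x + 1, y), Q4.sw) ∈ A) + b2 (((x, y), Q4.se) ∈ A)) = 0 := by
    intro x y h1 h2 h3 h4
    have i1 : inR a b c d (x, y) := ⟨⟨h1, by simp only; omega⟩, h3, h4⟩
    have i2 : inR a b c d (x + 1, y) := ⟨⟨by simp only; omega, h2⟩, h3, h4⟩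
    by_cases he : ((x, y, true) : Edg) ∈ F
    · have h1 := hop ((x, y), .ne) i1 (by rw [mv_ne]; exact i2) (by simpa using he)
      have h2 := hop ((x + 1, y), .sw) i2 (by rw [mv_sw, add_sub_cancel_right]; exact i1)
        (by simpa using he)
      rw [mv_ne] at h1
      rw [mv_sw, add_sub_cancel_right] at h2
      rw [h1, h2, two, two, add_zero]
    · have h1 := hcl ((x, y), .ne) i1 (by simpa using he)
      have h2 := hcl ((x + 1, y), .sw) i2 (by simpa using he)
      rw [rt_ne] at h1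
      rw [rt_sw] at h2
      rw [h1, h2]
      have e1 := two (b2 (((x, y), Q4.se) ∈ A))
      have e2 := two (b2 (((x + 1, y), Q4.nw) ∈ A))
      linear_combination e1 + e2
  have V0 : ∀ x y : ℤ, a ≤ x → x ≤ b → c ≤ y → y + 1 ≤ d →
      b2 (((x, y), Q4.nw) ∈ A) + b2 (((x, y), Q4.ne) ∈ A) +
        (b2 (((x, y + 1), Q4.sw) ∈ A) + b2 (((x, y + 1), Q4.se) ∈ A)) = 0 := by
    intro x y h1 h2 h3 h4
    have i1 : inR a b c d (x, y) := ⟨⟨h1, h2⟩, h3, by simp only; omega⟩
    have i2 : inR a b c d (x, y + 1) := ⟨⟨h1, h2⟩, by simp only; omega, h4⟩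
    by_cases he : ((x, y, false) : Edg) ∈ F
    · have h1 := hop ((x, y), .nw) i1 (by rw [mv_nw]; exact i2) (by simpa using he)
      have h2 := hop ((x, y + 1), .se) i2 (by rw [mv_se, add_sub_cancel_right]; exact i1)
        (by simpa using he)
      rw [mv_nw] at h1
      rw [mv_se, add_sub_cancel_right] at h2
      rw [h1, h2]
      have e1 := two (b2 (((x, y + 1), Q4.sw) ∈ A))
      have e2 := two (b2 (((x, y), Q4.ne) ∈ A))
      linear_combination e1 + e2
    · have h1 := hcl ((x, y), .nw) i1 (by simpa using he)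
      have h2 := hcl ((x, y + 1), .se) i2 (by simpa using he)
      rw [rt_nw] at h1
      rw [rt_se] at h2
      rw [h1, h2, two, two, add_zero]
  obtain ⟨hv, hf, h⟩ := pot_exists (fun σ => b2 (cB a b c d σ ∈ A))
    (relH (α := fun σ => b2 (σ ∈ A)) hab hcd H0) (relV (α := fun σ => b2 (σ ∈ A)) hab hcd V0)
  have hin : ∀ σ : St, inR a b c d σ.1 → hv σ.1 + hf (face σ) = b2 (σ ∈ A) := by
    intro σ hσ
    rw [h σ]
    show b2 (cB a b c d σ ∈ A) = _
    rw [cB_in hσ]
  refine ⟨hv, hf, h, ?_, ?_⟩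
  · rintro ⟨x, y, β⟩ ⟨he, hs, ht⟩
    cases β with
    | true =>
      rw [src_mk] at hs ⊢
      rw [tgt_true] at ht ⊢
      have h1 := hop ((x, y), .ne) hs (by rw [mv_ne]; exact ht) (by simpa using he)
      rw [mv_ne] at h1
      have h2 := hin ((x, y), .ne) hs
      have h3 := hin ((x + 1, y), .nw) ht
      rw [face_ne] at h2
      rw [face_nw, add_sub_cancel_right] at h3
      linear_combination h2 - h3 + h1
    | false =>
      rw [src_mk] at hs ⊢
      rw [tgt_false] at ht ⊢
      have h1 := hop ((x, y), .nw) hs (by rw [mv_nw]; exact ht) (by simpa using he)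
      rw [mv_nw] at h1
      have h2 := hin ((x, y), .nw) hs
      have h3 := hin ((x, y + 1), .sw) ht
      rw [face_nw] at h2
      rw [face_sw, add_sub_cancel_right] at h3
      linear_combination h2 - h3 + h1
  · rintro ⟨x, y, β⟩ he ⟨hs, ht⟩
    cases β with
    | true =>
      rw [src_mk] at hs
      have h1 := hcl ((x, y), .ne) hs (by simpa using he)
      rw [rt_ne] at h1
      have h2 := hin ((x, y), .ne) hs
      have h3 := hin ((x, y), .se) hs
      rw [face_ne] at h2
      rw [face_se] at h3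
      rw [dtgt_mk, dsrc_true]
      linear_combination h3 - h2 - h1
    | false =>
      rw [src_mk] at hs
      have h1 := hcl ((x, y), .nw) hs (by simpa using he)
      rw [rt_nw] at h1
      have h2 := hin ((x, y), .nw) hs
      have h3 := hin ((x, y), .ne) hs
      rw [face_nw] at h2
      rw [face_ne] at h3
      rw [dtgt_mk, dsrc_false]
      linear_combination h2 - h3 + h1

end Pool.Agent.TH990.HP
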