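import Pool.Agent.TH990.HP.Loc

/-!
Three arms from a path of the interface which starts and ends outside of a box, continued.
-/

set_option autoImplicit false

namespace Pool.Agent.TH990.HP

open H974 H12S Finset H389NS H984P H984N H342P Pool.Agent.TH990.FU
open MeasureTheory Filter Topology Pool.Agent.W92.DP Pool.Agent.W462.DPL Pool.Agent.W424.OD

/-- Local version of `FU.dich`. -/
theorem dichL {C : Set Edg} {A : Set St} {a b c d : ℤ} (hab : a ≤ b) (hcd : c ≤ d)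
    (hinv : ∀ σ, inR a b c d σ.1 → inR a b c d (nxt C σ).1 → (σ ∈ A ↔ nxt C σ ∈ A)) {σ : St}
    (hσ : σ ∈ A) (hσb : inR a b c d σ.1) {δ : ℝ} (hδ : 0 < δ) {o : ℂ} {g : C(unitInterval, ℂ)}
    (hN : ∀ t u, Near δ o (g t) 3 u → inR a b c d u ∧ NV A u) :
    Reach {e | ¬ Reach (C ∩ EB a b c d) σ.1 (src e) ∧ ¬ Reach (C ∩ EB a b c d) σ.1 (tgt e)}
      (vz δ o (g 0)) (vz δ o (g 1)) ∨
    Reach {e | ¬ Reach (dl '' (Cᶜ ∩ EB a b c d)) (face σ) (src e) ∧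
        ¬ Reach (dl '' (Cᶜ ∩ EB a b c d)) (face σ) (tgt e)}
      (vz δ o (g 0)) (vz δ o (g 1)) := by
  obtain ⟨hv, hf, hpot', hC, hE⟩ := pot_loc hab hcd hinv
  have hpot : ∀ σ : St, hv σ.1 + hf (face σ) = b2 (σ ∈ {τ | cB a b c d τ ∈ A}) := hpot'
  have hN' : ∀ t u, Near δ o (g t) 3 u → NV {τ | cB a b c d τ ∈ A} u := by
    intro t u hu q hq
    obtain ⟨h1, h2⟩ := hN t u hu
    have hq' : cB a b c d (u, q) ∈ A := hq
    rw [cB_in (σ := (u, q)) h1] at hq'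
    exact h2 q hq'
  have hreach : ∀ u w, Reach (C ∩ EB a b c d) u w → hv u = hv w := by
    intro u w h
    induction h with
    | refl => rfl
    | tail _ hs ih =>
      obtain ⟨e, he, h | h⟩ := hs
      · rw [ih, ← h.1, ← h.2]; exact hC e he
      · rw [ih, ← h.1, ← h.2]; exact (hC e he).symm
  have hdreach : ∀ f g, Reach (dl '' (Cᶜ ∩ EB a b c d)) f g → hf f = hf g := by
    intro f g h
    rw [reach_dl] at h
    induction h with
    | refl => rfl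
    | tail _ hs ih =>
      obtain ⟨e, he, h | h⟩ := hs
      · rw [ih, ← h.1, ← h.2]; exact hE e he.1 he.2
      · rw [ih, ← h.1, ← h.2]; exact (hE e he.1 he.2).symm
  have hH : ∀ t u, Near δ o (g t) 3 u → hv u = hv (vz δ o (g 0)) := by
    intro t u hu
    rw [← pot_path hpot hδ hN' t]
    exact pot_near hpot (hN' t) hu ((near_vz _ _).mono (by norm_num))
  have hHf : ∀ t u, Near δ o (g t) 3 u → hf u = hv (vz δ o (g 0)) := by
    intro t u hu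
    rw [← hH t u hu, pot_eq hpot (hN' t u hu) .ne]
    rfl
  have h1 := hpot σ
  have hσ' : σ ∈ {τ | cB a b c d τ ∈ A} := by
    show cB a b c d σ ∈ A
    rw [cB_in hσb]
    exact hσ
  rw [b2_of hσ'] at h1
  by_cases hcase : hv σ.1 = hv (vz δ o (g 0))
  · right
    have h2 : hf (face σ) ≠ hv (vz δ o (g 0)) := by
      intro h
      rw [hcase, h, Pool.Agent.W92.DP.z2s] at h1
      exact absurd h1 (by decide)
    apply follow' hδ
    intro t e hs ht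
    refine ⟨fun h => h2 ?_, fun h => h2 ?_⟩
    · rw [hdreach _ _ h, hHf t _ hs]
    · rw [hdreach _ _ h, hHf t _ ht]
  · left
    apply follow' hδ
    intro t e hs ht
    refine ⟨fun h => hcase ?_, fun h => hcase ?_⟩
    · rw [hreach _ _ h, hH t _ hs]
    · rw [hreach _ _ h, hH t _ ht]

theorem blk_sub_EB {c : ℤ × ℤ} {k K : ℕ} (hkK : k ≤ K) {e : Edg} (he : e ∈ blk c k) :
    e ∈ EB (c.1 - K) (c.1 + K) (c.2 - K) (c.2 + K) := by
  obtain ⟨x, y, β⟩ := e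
  unfold blk at he
  cases β
  · rw [mem_RE_false] at he
    constructor
    · rw [src_mk]
      refine ⟨⟨?_, ?_⟩, ?_, ?_⟩ <;> simp only <;> omega
    · rw [tgt_false]
      refine ⟨⟨?_, ?_⟩, ?_, ?_⟩ <;> simp only <;> omega
  · rw [mem_RE_true] at he
    constructor
    · rw [src_mk]
      refine ⟨⟨?_, ?_⟩, ?_, ?_⟩ <;> simp only <;> omega
    · rw [tgt_true]
      refine ⟨⟨?_, ?_⟩, ?_, ?_⟩ <;> simp only <;> omega

/-- Configurations which agree in a box have the same dual configurations in a smaller one. -/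
theorem dl_blk {c : ℤ × ℤ} {k K : ℕ} (hkK : k + 1 ≤ K) {F G : Set Edg}
    (h : ∀ e ∈ EB (c.1 - K) (c.1 + K) (c.2 - K) (c.2 + K), (e ∈ F ↔ e ∈ G)) :
    (dl '' F) ∩ ↑(blk c k) = (dl '' G) ∩ ↑(blk c k) := by
  have key : ∀ F G : Set Edg, (∀ e ∈ EB (c.1 - K) (c.1 + K) (c.2 - K) (c.2 + K),
      (e ∈ F → e ∈ G)) → (dl '' F) ∩ ↑(blk c k) ⊆ (dl '' G) ∩ ↑(blk c k) := by
    rintro F G h _ ⟨⟨⟨x, y, β⟩, he, rfl⟩, hb⟩
    refine ⟨⟨_, h _ ?_ he, rfl⟩, hb⟩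
    have hb' : dl (x, y, β) ∈ blk c k := hb
    unfold blk at hb'
    cases β
    · have e1 : dl (x, y, false) = (x - 1, y, true) := by
        unfold dl
        rfl
      rw [e1, mem_RE_true] at hb'
      constructor
      · rw [src_mk]
        refine ⟨⟨?_, ?_⟩, ?_, ?_⟩ <;> simp only <;> omega
      · rw [tgt_false]
        refine ⟨⟨?_, ?_⟩, ?_, ?_⟩ <;> simp only <;> omega
    · have e1 : dl (x, y, true) = (x, y - 1, false) := by
        unfold dl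
        rfl
      rw [e1, mem_RE_false] at hb'
      constructor
      · rw [src_mk]
        refine ⟨⟨?_, ?_⟩, ?_, ?_⟩ <;> simp only <;> omega
      · rw [tgt_true]
        refine ⟨⟨?_, ?_⟩, ?_, ?_⟩ <;> simp only <;> omega
  exact Set.Subset.antisymm (key F G fun e he => (h e he).1) (key G F fun e he => (h e he).2)

/-- **three arms, local version** -/
theorem armsL {C : Set Edg} {A : Set St} {c : ℤ × ℤ} {d k K : ℕ} (hkK : k + 1 ≤ K)
    (hinv : ∀ σ, BX c K σ.1 → BX c K (nxt C σ).1 → (σ ∈ A ↔ nxt C σ ∈ A)) {σ τ : St}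
    (hσ : σ ∈ A)
    (h1 : Reach (C ∩ EB (c.1 - K) (c.1 + K) (c.2 - K) (c.2 + K)) σ.1 τ.1)
    (h2 : Reach (dl '' (Cᶜ ∩ EB (c.1 - K) (c.1 + K) (c.2 - K) (c.2 + K))) (face σ) (face τ))
    {δ : ℝ} (hδ : 0 < δ) {o : ℂ} {g : C(unitInterval, ℂ)}
    (hN : ∀ t u, Near δ o (g t) 3 u → BX c K u ∧ NV A u)
    (hdk : d ≤ k) (s1 : BX c d σ.1) (s2 : BX c d (face σ)) (s3 : ¬ BX c k τ.1)
    (s4 : ¬ BX c k (face τ)) (s5 : BX c d (vz δ o (g 0))) (s6 : ¬ BX c k (vz δ o (g 1))) :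
    A3v c d k C ∨ A3v c d k (dl '' Cᶜ) := by
  have hsb : BX c K σ.1 := by
    obtain ⟨⟨a1, a2⟩, a3, a4⟩ := s1
    refine ⟨⟨?_, ?_⟩, ?_, ?_⟩ <;> omega
  rcases dichL (a := c.1 - K) (b := c.1 + K) (c := c.2 - K) (d := c.2 + K) (by omega) (by omega)
    hinv hσ hsb hδ hN with h | h
  · left
    have h3 := A3v_of hdk s1 (Reach.refl _ _) s3 h1 s5 s6 h
    refine (A3v_congr ?_).1 h3
    ext e
    constructor
    · rintro ⟨⟨q1, -⟩, q2⟩
      exact ⟨q1, q2⟩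
    · rintro ⟨q1, q2⟩
      exact ⟨⟨q1, blk_sub_EB (by omega) q2⟩, q2⟩
  · right
    have h3 := A3v_of hdk s2 (Reach.refl _ _) s4 h2 s5 s6 h
    refine (A3v_congr (dl_blk hkK ?_)).1 h3
    intro e he
    exact ⟨fun h => h.1, fun h => ⟨h, he⟩⟩

/-- **the deterministic part, local version** -/
theorem det_loc {δ : ℝ} (hδ : 0 < δ) {o z : ℂ} {r d : ℝ} (hδr : δ ≤ r) (hd : 256 * r ≤ d)
    {C : Set Edg} {A : Set St} {K : ℕ} (hK : ⌊d / (8 * δ)⌋₊ ≤ K)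
    (hinv : ∀ σ, BX (vz δ o z) K σ.1 → BX (vz δ o z) K (nxt C σ).1 → (σ ∈ A ↔ nxt C σ ∈ A))
    {g : C(unitInterval, ℂ)} (hg0 : dist (g 0) z < r)
    (hg1 : d / 2 ≤ dist (g 1) z) (hN : ∀ t u, Near δ o (g t) 3 u → BX (vz δ o z) K u ∧ NV A u)
    {σ τ : St} (hσ : σ ∈ A) (hσx : dist (zp δ o σ.1) z ≤ r + 2 * δ)
    (hτx : ¬ BX (vz δ o z) (⌊d / (8 * δ)⌋₊ - 1) τ.1)
    (h1 : Reach (C ∩ EB ((vz δ o z).1 - K) ((vz δ o z).1 + K) ((vz δ o z).2 - K)
      ((vz δ o z).2 + K)) σ.1 τ.1)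
    (h2 : Reach (dl '' (Cᶜ ∩ EB ((vz δ o z).1 - K) ((vz δ o z).1 + K) ((vz δ o z).2 - K)
      ((vz δ o z).2 + K))) (face σ) (face τ)) :
    A3v (vz δ o z) (⌈r / δ⌉₊ + 3 + 2) (⌊d / (8 * δ)⌋₊ - 2) C ∨
      A3v (vz δ o z) (⌈r / δ⌉₊ + 3 + 2) (⌊d / (8 * δ)⌋₊ - 2) (dl '' Cᶜ) := by
  have hr : 0 < r := hδ.trans_le hδr
  have hd0 : 0 < d := by linarith
  obtain ⟨s1, s2, s3, -⟩ := sizes hδ hδr hd
  have hbox : ∀ w : Vtx, BX (vz δ o z) (⌊d / (8 * δ)⌋₊ - 1) w →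
      dist (zp δ o w) z ≤ d / 4 + 2 * δ := by
    intro w hw
    have h5 := of_box hδ hw
    have hk : ((⌊d / (8 * δ)⌋₊ - 1 : ℕ) : ℝ) ≤ d / (8 * δ) := by
      have h6 : (⌊d / (8 * δ)⌋₊ : ℝ) ≤ d / (8 * δ) := Nat.floor_le (by positivity)
      have h7 : ((⌊d / (8 * δ)⌋₊ - 1 : ℕ) : ℝ) ≤ (⌊d / (8 * δ)⌋₊ : ℝ) := by
        exact_mod_cast Nat.sub_le _ _
      linarith
    have h6 : 2 * δ * ((⌊d / (8 * δ)⌋₊ - 1 : ℕ) : ℝ) ≤ d / 4 := by
      calc 2 * δ * ((⌊d / (8 * δ)⌋₊ - 1 : ℕ) : ℝ) ≤ 2 * δ * (d / (8 * δ)) :=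
            mul_le_mul_of_nonneg_left hk (by positivity)
        _ = d / 4 := by
            field_simp
            norm_num
    linarith
  have hmono : ∀ {a b : ℕ} {w : Vtx}, a ≤ b → BX (vz δ o z) a w → BX (vz δ o z) b w := by
    rintro a b w hab ⟨⟨q1, q2⟩, q3, q4⟩
    unfold BX inR
    omega
  have hfar : ∀ w : Vtx, d / 2 - 2 * δ ≤ dist (zp δ o w) z →
      ¬ BX (vz δ o z) (⌊d / (8 * δ)⌋₊ - 1) w := by
    intro w hw h
    have := hbox w h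
    linarith
  have hσ1 : BX (vz δ o z) (⌈r / δ⌉₊ + 3) σ.1 := box_of hδ hσx
  have hv : ∀ y : ℂ, dist y (zp δ o (vz δ o y)) ≤ 2 * δ := by
    intro y
    refine ((near_vz (δ := δ) o y).dist hδ).trans (le_of_eq ?_)
    ring
  refine armsL (K := K) (by omega) hinv hσ h1 h2 hδ hN (by omega) (hmono (by omega) hσ1)
    (hmono (by omega) (box_face hσ1)) (fun h => hτx (hmono (by omega) h))
    (fun h => hτx (hmono (by omega) (box_face' h)))
    (hmono (a := ⌈r / δ⌉₊ + 3) (by omega) (box_of hδ ?_))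
    (fun h => hfar _ ?_ (hmono (by omega) h))
  · have := dist_triangle_left (zp δ o (vz δ o (g 0))) z (g 0)
    have := hv (g 0)
    linarith
  · have := dist_triangle (g 1) (zp δ o (vz δ o (g 1))) z
    have := hv (g 1)
    linarith

end Pool.Agent.TH990.HP
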