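import Pool.Agent.TH990.HP.Loc2
import Pool.Agent.W92.DP.Dich
import Pool.Agent.W571.DPad
import Pool.Agent.H984R4.HN.FinalH

/-!
The exploration path of the half-plane: arms from the events for the rescaled curve.
-/

set_option autoImplicit false

namespace Pool.Agent.TH990.HP

open H974 H12S Finset H389NS H984P H342P Pool.Agent.TH990.FU
open MeasureTheory Filter Topology Pool.Agent.W92.DP Pool.Agent.W462.DPL Pool.Agent.W424.OD
open H984H (Conf perc opn path place gam curve bx cut)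

/-- The mesh. -/
noncomputable def sc (n : ℕ) : ℝ := (n : ℝ) ^ (-(4/7) : ℝ)

theorem sc_pos {n : ℕ} (hn : 0 < n) : 0 < sc n :=
  Real.rpow_pos_of_pos (by exact_mod_cast hn) _

theorem curve_eq (n : ℕ) (ω : Conf) :
    curve n ω = H984N.pl n (fun k => ((sc n : ℝ) : ℂ) * gam ω k) := rfl

theorem place_near {δ : ℝ} (hδ : 0 ≤ δ) (σ : St) :
    dist (((δ : ℝ) : ℂ) * place σ) (zp δ 0 σ.1) ≤ δ / 2 := by
  rw [dist_eq_norm]
  refine (Complex.norm_le_abs_re_add_abs_im _).trans ?_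
  have key : ∀ x : ℝ, |δ * (x + 1/4) - (0 + δ * x)| = δ / 4 ∧
      |δ * (x - 1/4) - (0 + δ * x)| = δ / 4 := by
    intro x
    constructor
    · rw [show δ * (x + 1/4) - (0 + δ * x) = δ / 4 by ring, abs_of_nonneg (by positivity)]
    · rw [show δ * (x - 1/4) - (0 + δ * x) = -(δ / 4) by ring, abs_neg,
        abs_of_nonneg (by positivity)]
  obtain ⟨⟨x, y⟩, q⟩ := σ
  have h1 := key x
  have h2 := key y
  cases q <;> simp only [place, zp, Complex.sub_re, Complex.sub_im, Complex.re_ofReal_mul,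
    Complex.im_ofReal_mul, Complex.zero_re, Complex.zero_im]
  · rw [h1.1, h2.1]; linarith
  · rw [h1.2, h2.1]; linarith
  · rw [h1.2, h2.2]; linarith
  · rw [h1.1, h2.2]; linarith

theorem gstep {δ : ℝ} (hδ : 0 ≤ δ) (ω : Conf) (k : ℕ) :
    dist (((δ : ℝ) : ℂ) * gam ω k) (((δ : ℝ) : ℂ) * gam ω (k + 1)) ≤ δ / 2 := by
  rw [dist_eq_norm, ← mul_sub, norm_mul, Complex.norm_real, Real.norm_eq_abs, abs_of_nonneg hδ,
    ← dist_eq_norm]
  have := H984H.gam_step ω k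
  nlinarith

theorem nxt_path (ω : Conf) (k : ℕ) : nxt (opn ω) (path ω (k + 1)) = path ω k := by
  obtain ⟨τ, hτ⟩ := (nxt_bij (opn ω)).2 (path ω k)
  rw [H984H.path_succ, ← hτ, H984H.step_nxt]

/-! ### The box -/

/-- The box as a rectangle of the natural parametrisation library. -/
def bxN (ρ : ℤ) : H984N.Dm := ⟨-ρ, ρ, ρ, 0⟩

open Classical in
/-- The configuration without the edges of the positive half-axis. -/
noncomputable def cutz (ω : Conf) (ρ : ℤ) : Finset Edg :=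
  (cut ω ρ).filter (fun e => e ∉ H984H.Dm.zer)

theorem cfg_eq (ω : Conf) (ρ : ℤ) : (bxN ρ).cfg (cutz ω ρ) = (bx ρ).cfg (cut ω ρ) := by
  classical
  have h : (↑(cutz ω ρ) : Set Edg) = ↑(cut ω ρ) \ H984H.Dm.zer := by
    unfold cutz
    ext e
    simp only [Finset.coe_filter, Set.mem_ofPred_eq, Set.mem_sdiff, Finset.mem_coe]
  show (↑(cutz ω ρ) : Set Edg) ∪ (bxN ρ).wir = (↑(cut ω ρ) \ H984H.Dm.zer) ∪ (bx ρ).wir
  rw [h]
  rfl

theorem walk_eq (ω : Conf) (ρ : ℤ) (k : ℕ) :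
    (bxN ρ).walk (cutz ω ρ) k = (bx ρ).walk (cut ω ρ) k := by
  show orb ((bxN ρ).cfg (cutz ω ρ)) (bxN ρ).start k = orb ((bx ρ).cfg (cut ω ρ)) (bx ρ).start k
  rw [cfg_eq]
  rfl

theorem len_eq (ω : Conf) (ρ : ℤ) : (bxN ρ).len (cutz ω ρ) = (bx ρ).len (cut ω ρ) := by
  show sInf {k | (bxN ρ).walk (cutz ω ρ) k = H984N.Dm.stop} =
    sInf {k | (bx ρ).walk (cut ω ρ) k = H984H.Dm.stop}
  simp only [walk_eq]
  rfl

theorem bxN_ok {ρ : ℤ} (hρ : 1 ≤ ρ) : (bxN ρ).Ok := by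
  constructor <;> simp only [bxN] <;> omega

theorem cutz_sub (ω : Conf) (ρ : ℤ) : cutz ω ρ ⊆ (bxN ρ).edges := by
  classical
  unfold cutz
  exact (Finset.filter_subset _ _).trans (H984H.Couple_cut_sub ω ρ)

/-- A short path stays in a large box. -/
theorem stay {n : ℕ} {ρ : ℤ} (hρ : (n : ℤ) + 1 ≤ ρ) (ω : Conf) {j : ℕ} (hj : j ≤ n) :
    H984H.sd (path ω j).1 (0, 0) < ρ := by
  have h1 := H984H.path_sd ω (Nat.zero_le j)
  have h2 : H984H.sd (path ω j).1 (0, 0) = H984H.sd (path ω 0).1 (path ω j).1 := by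
    have : (path ω 0).1 = (0, 0) := rfl
    rw [this]
    simp only [H984H.sd]
    rw [abs_sub_comm, abs_sub_comm (path ω j).1.2]
  rw [h2]
  omega

theorem coupleN {n : ℕ} {ρ : ℤ} (hρ : (n : ℤ) + 1 ≤ ρ) (ω : Conf) {k : ℕ} (hk : k ≤ n) :
    k + 1 ≤ (bxN ρ).len (cutz ω ρ) ∧
      (bxN ρ).walk (cutz ω ρ) ((bxN ρ).len (cutz ω ρ) - 1 - k) = path ω k := by
  rw [walk_eq, len_eq]
  exact H984H.couple (by omega) ω (fun j hj => stay hρ ω (by omega))

/-- Boxes in the open half-plane. -/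
theorem dom_half {δ d : ℝ} {z : ℂ} (hδ : 0 < δ) (hd : 2 * δ ≤ d)
    (hball : Metric.ball z d ⊆ {w : ℂ | 0 < w.im}) {K : ℕ} (hK : (K : ℝ) * δ ≤ d / 2 - δ) :
    0 < (vz δ 0 z).2 - K := by
  have hd0 : 0 < d := by linarith
  have hz : d ≤ z.im := by
    by_contra hcon
    push Not at hcon
    have hz0 : z ∈ Metric.ball z d := Metric.mem_ball_self (by linarith)
    have hz1 : 0 < z.im := hball hz0
    have h1 : (⟨z.re, 0⟩ : ℂ) ∈ Metric.ball z d := by
      rw [Metric.mem_ball, dist_eq_norm]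
      refine lt_of_le_of_lt (Complex.norm_le_abs_re_add_abs_im _) ?_
      simp only [Complex.sub_re, Complex.sub_im, sub_self, abs_zero, zero_sub, abs_neg, zero_add]
      rw [abs_of_pos hz1]
      exact hcon
    exact lt_irrefl (0:ℝ) (hball h1)
  unfold vz
  simp only [Complex.zero_im, sub_zero]
  have h1 := Int.lt_floor_add_one (z.im / δ)
  have h2 : d / δ ≤ z.im / δ := div_le_div_of_nonneg_right hz hδ.le
  have h3 : (K : ℝ) ≤ d / (2 * δ) - 1 := by
    rw [le_sub_iff_add_le, le_div_iff₀ (by positivity)]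
    nlinarith
  have h4 : d / δ = 2 * (d / (2 * δ)) := by field_simp
  have h5 : 0 ≤ d / (2 * δ) := by positivity
  have h6 : 1 ≤ d / (2 * δ) := by
    rw [le_div_iff₀ (by positivity)]
    linarith
  have h7 : (0 : ℝ) < (⌊z.im / δ⌋ : ℝ) - K := by linarith
  exact_mod_cast h7

theorem k_small {δ d : ℝ} (hδ : 0 < δ) (hd : 8 * δ ≤ d) :
    ((⌊d / (8 * δ)⌋₊ : ℕ) : ℝ) * δ ≤ d / 2 - δ := by
  have hd0 : 0 < d := by linarith
  have h1 : ((⌊d / (8 * δ)⌋₊ : ℕ) : ℝ) ≤ d / (8 * δ) := Nat.floor_le (by positivity)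
  have h2 : d / (8 * δ) * δ = d / 8 := by field_simp
  nlinarith

/-- The configurations of the half-plane and of the box agree in boxes of the open half-plane. -/
theorem cut_iff {ω : Conf} {ρ : ℤ} {c : ℤ × ℤ} {K : ℕ} (h0 : 0 < c.2 - K) (h1 : -ρ ≤ c.1 - K)
    (h2 : c.1 + K ≤ ρ) (h3 : c.2 + K ≤ ρ) {e : Edg}
    (he : e ∈ EB (c.1 - K) (c.1 + K) (c.2 - K) (c.2 + K)) : e ∈ opn ω ↔ e ∈ cut ω ρ := by
  rw [H984H.Couple_mem_cut]
  obtain ⟨x, y, β⟩ := e
  obtain ⟨⟨⟨a1, a2⟩, a3, a4⟩, ⟨b1, b2⟩, b3, b4⟩ := he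
  have hop : ((x, y, β) : Edg) ∈ opn ω ↔ ((y = 0 ∧ β = true ∧ x < 0) ∨
      (0 ≤ y ∧ ¬ (y = 0 ∧ β = true) ∧ ω (x, y, β) = true)) := Iff.rfl
  rw [hop]
  by_cases hw : ω (x, y, β) = true
  · cases β
    · rw [mem_RE_false]
      rw [src_mk] at a1 a2 a3 a4
      rw [tgt_false] at b1 b2 b3 b4
      simp only at a1 a2 a3 a4 b1 b2 b3 b4
      simp only [hw, Bool.false_eq_true, false_and, and_false, and_true, false_or,
        not_false_eq_true, true_and]
      omega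
    · rw [mem_RE_true]
      rw [src_mk] at a1 a2 a3 a4
      rw [tgt_true] at b1 b2 b3 b4
      simp only at a1 a2 a3 a4 b1 b2 b3 b4
      simp only [hw, and_true, true_and]
      omega
  · have hw' : ω (x, y, β) = false := by simpa using hw
    rw [src_mk] at a1 a2 a3 a4
    simp only at a1 a2 a3 a4
    simp only [hw', Bool.false_eq_true, and_false, or_false, iff_false]
    omega

theorem cutz_blk {ω : Conf} {ρ : ℤ} {c : ℤ × ℤ} {K : ℕ} (h0 : 0 < c.2 - K) :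
    (↑(cutz ω ρ) : Set Edg) ∩ ↑(blk c K) = (↑(cut ω ρ) : Set Edg) ∩ ↑(blk c K) := by
  classical
  ext e
  constructor
  · rintro ⟨h1, h2⟩
    have h1' : e ∈ cutz ω ρ := h1
    unfold cutz at h1'
    exact ⟨(Finset.mem_filter.1 h1').1, h2⟩
  · rintro ⟨h1, h2⟩
    refine ⟨?_, h2⟩
    show e ∈ cutz ω ρ
    unfold cutz
    refine Finset.mem_filter.2 ⟨h1, ?_⟩
    rintro ⟨-, hy, -⟩
    have h3 := (blk_sub_EB le_rfl h2).1.2.1
    obtain ⟨x, y, β⟩ := e
    rw [src_mk] at h3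
    simp only at h3 hy
    omega

end Pool.Agent.TH990.HP
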